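import Pool.Agent.MP_a79c01_pr.Basic

/-!
Actions of Bayesian agents in a finite-signal observation network with prior odds `r`, and the
behaviour of a network that is attached to a set of observed agents.
-/

set_option autoImplicit false

namespace Pool.Agent.MP_a79c01_pr

open Finset

variable {S : Type} [Fintype S] [Inhabited S]

/-- the decision of an agent with evidence `y` for state 1 and `x` for state 0; ties go to `t` -/
noncomputable def dec (t : Bool) (y x : ℝ) : Bool :=
  open Classical in if x < y then true else if y < x then false else t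

lemma dec_true_of_lt {t : Bool} {y x : ℝ} (h : x < y) : dec t y x = true := by
  simp [dec, h]

lemma dec_false_of_lt {t : Bool} {y x : ℝ} (h : y < x) : dec t y x = false := by
  simp [dec, h, h.le]

lemma le_of_dec_true {t : Bool} {y x : ℝ} (h : dec t y x = true) : x ≤ y := by
  by_contra hc
  rw [dec_false_of_lt (not_le.mp hc)] at h
  exact Bool.noConfusion h

lemma le_of_dec_false {t : Bool} {y x : ℝ} (h : dec t y x = false) : y ≤ x := by
  by_contra hc
  rw [dec_true_of_lt (not_le.mp hc)] at h
  exact Bool.noConfusion h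

lemma dec_mul {t : Bool} {c y x : ℝ} (hc : 0 < c) : dec t (c * y) (c * x) = dec t y x := by
  unfold dec
  simp only [mul_lt_mul_iff_of_pos_left hc]

lemma dec_not {t : Bool} {y x : ℝ} : dec (!t) y x = !(dec t x y) := by
  rcases lt_trichotomy x y with h | h | h
  · rw [dec_true_of_lt h, dec_false_of_lt h]; rfl
  · subst h; simp [dec]
  · rw [dec_false_of_lt h, dec_true_of_lt h]; rfl

/-- The action of agent `n` as a function of the signals, in the network `N` with prior odds `r`.
The agent compares the weight of her information (the actions of the agents in `N n` and her own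
signal) in the two states. -/
noncomputable def act (F : Bool → S → ℝ) (t : Bool) (r : ℝ) (N : ℕ → Finset ℕ) :
    ℕ → (ℕ → S) → Bool
  | n => fun ω => dec t
      (r * (Ex (F true) n fun ω' => ind (∀ m : Fin n, (m : ℕ) ∈ N n →
        act F t r N m ω' = act F t r N m ω)) * F true (ω n))
      ((Ex (F false) n fun ω' => ind (∀ m : Fin n, (m : ℕ) ∈ N n →
        act F t r N m ω' = act F t r N m ω)) * F false (ω n))
termination_by n => n
decreasing_by all_goals exact Fin.is_lt _

/-- `ω` and `ω'` give the same actions of the agents in `T` -/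
def Same (F : Bool → S → ℝ) (t : Bool) (r : ℝ) (N : ℕ → Finset ℕ) (T : Finset ℕ)
    (ω' ω : ℕ → S) : Prop := ∀ m ∈ T, act F t r N m ω' = act F t r N m ω

/-- the probability in state `b` of the actions of the agents in `T` being those under `ω` -/
noncomputable def pr (F : Bool → S → ℝ) (t : Bool) (r : ℝ) (N : ℕ → Finset ℕ) (b : Bool) (n : ℕ)
    (T : Finset ℕ) (ω : ℕ → S) : ℝ :=
  Ex (F b) n fun ω' => ind (Same F t r N T ω' ω)

/-- neighbourhoods consist of predecessors -/
def WF (N : ℕ → Finset ℕ) : Prop := ∀ n, N n ⊆ range n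

/-- signal laws -/
structure Law (F : Bool → S → ℝ) : Prop where
  pos : ∀ b s, 0 < F b s
  sum : ∀ b, ∑ s, F b s = 1

variable {F : Bool → S → ℝ} {t : Bool} {r : ℝ} {N N' G : ℕ → Finset ℕ}

lemma act_eq (hN : WF N) (n : ℕ) (ω : ℕ → S) :
    act F t r N n ω = dec t (r * pr F t r N true n (N n) ω * F true (ω n))
      (pr F t r N false n (N n) ω * F false (ω n)) := by
  rw [act]
  unfold pr Same
  have key : ∀ ω', (∀ m : Fin n, (m : ℕ) ∈ N n → act F t r N m ω' = act F t r N m ω) ↔
      (∀ m ∈ N n, act F t r N m ω' = act F t r N m ω) := fun ω' =>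
    ⟨fun h m hm => h ⟨m, Finset.mem_range.mp (hN n hm)⟩ hm, fun h m hm => h m hm⟩
  simp only [key]

lemma act_dep (hN : WF N) : ∀ (n : ℕ) (ω ω' : ℕ → S), (∀ i ≤ n, ω i = ω' i) →
    act F t r N n ω = act F t r N n ω' := by
  intro n
  induction n using Nat.strong_induction_on with
  | _ n ih =>
    intro ω ω' h
    rw [act_eq hN, act_eq hN]
    have h1 : ∀ b, pr F t r N b n (N n) ω = pr F t r N b n (N n) ω' := by
      intro b
      unfold pr
      refine Ex_congr fun σ => ?_
      have : Same F t r N (N n) σ ω ↔ Same F t r N (N n) σ ω' := by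
        unfold Same
        refine forall₂_congr fun m hm => ?_
        rw [ih m (Finset.mem_range.mp (hN n hm)) ω ω'
          (fun i hi => h i (by have := Finset.mem_range.mp (hN n hm); omega))]
      simp only [this]
    rw [h1, h1, h n le_rfl]

lemma act_depOn (hN : WF N) {n m : ℕ} (h : m < n) : DepOn (S := S) n (act F t r N m) :=
  fun ω ω' hω => act_dep hN m ω ω' fun i hi => hω i (by omega)

lemma same_depOn (hN : WF N) {n : ℕ} {T : Finset ℕ} (hT : T ⊆ range n) (ω : ℕ → S) :
    DepOn n (fun ω' => Same F t r N T ω' ω) := by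
  intro σ σ' h
  apply propext
  unfold Same
  refine forall₂_congr fun m hm => ?_
  rw [act_depOn hN (Finset.mem_range.mp (hT hm)) σ σ' h]

lemma same_symm {T : Finset ℕ} {ω ω' : ℕ → S} (h : Same F t r N T ω' ω) :
    Same F t r N T ω ω' := fun m hm => (h m hm).symm

lemma same_comm {T : Finset ℕ} {ω ω' : ℕ → S} : Same F t r N T ω' ω ↔ Same F t r N T ω ω' :=
  ⟨same_symm, same_symm⟩

lemma same_refl {T : Finset ℕ} {ω : ℕ → S} : Same F t r N T ω ω := fun _ _ => rfl

lemma same_trans {T : Finset ℕ} {ω ω' ω'' : ℕ → S} (h : Same F t r N T ω ω')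
    (h' : Same F t r N T ω' ω'') : Same F t r N T ω ω'' := fun m hm => (h m hm).trans (h' m hm)

lemma same_mono {T T' : Finset ℕ} (hT : T ⊆ T') {ω ω' : ℕ → S} (h : Same F t r N T' ω' ω) :
    Same F t r N T ω' ω := fun m hm => h m (hT hm)

lemma pr_same {T : Finset ℕ} {ω ω' : ℕ → S} (h : Same F t r N T ω ω') (b : Bool) (n : ℕ) :
    pr F t r N b n T ω = pr F t r N b n T ω' := by
  unfold pr
  refine Ex_congr fun σ => ?_
  have : Same F t r N T σ ω ↔ Same F t r N T σ ω' :=
    ⟨fun h' => same_trans h' h, fun h' => same_trans h' (same_symm h)⟩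
  simp only [this]

lemma pr_depOn (hN : WF N) {n : ℕ} {T : Finset ℕ} (hT : T ⊆ range n) (b : Bool) (k : ℕ) :
    DepOn n (pr F t r N b k T) := by
  intro ω ω' h
  refine pr_same (fun m hm => ?_) b k
  exact act_depOn hN (Finset.mem_range.mp (hT hm)) ω ω' h

lemma pr_pos (hF : Law F) (hN : WF N) {n : ℕ} {T : Finset ℕ} (hT : T ⊆ range n) (b : Bool)
    (ω : ℕ → S) : 0 < pr F t r N b n T ω := by
  classical
  unfold pr
  refine Ex_pos (hF.pos b) (fun σ => ind_nonneg _) ?_ ω (by rw [ind_true same_refl]; norm_num)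
  intro σ σ' h
  exact congrArg ind (same_depOn (F := F) (t := t) (r := r) hN hT ω σ σ' h)

lemma pr_local (hF : Law F) (hN : WF N) {n m : ℕ} (h : n ≤ m) {T : Finset ℕ} (hT : T ⊆ range n)
    (b : Bool) (ω : ℕ → S) : pr F t r N b m T ω = pr F t r N b n T ω := by
  classical
  unfold pr
  refine Ex_local' (hF.sum b) h ?_
  intro σ σ' h
  exact congrArg ind (same_depOn (F := F) (t := t) (r := r) hN hT ω σ σ' h)

lemma pr_empty (hF : Law F) (b : Bool) (n : ℕ) (ω : ℕ → S) : pr F t r N b n ∅ ω = 1 := by
  unfold pr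
  rw [Ex_congr (g := fun _ => 1) fun σ => ind_true (by intro m hm; simp at hm)]
  exact Ex_const (F b) (hF.sum b) n 1

/-- actions only depend on the network up to the agent -/
lemma act_congr_net (hN : WF N) (hN' : WF N') : ∀ (n : ℕ), (∀ i ≤ n, N i = N' i) →
    act F t r N n = act (S := S) F t r N' n := by
  intro n
  induction n using Nat.strong_induction_on with
  | _ n ih =>
    intro h
    funext ω
    rw [act_eq hN, act_eq hN']
    have h1 : ∀ b, pr F t r N b n (N n) ω = pr F t r N' b n (N' n) ω := by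
      intro b
      unfold pr
      refine Ex_congr fun σ => ?_
      have : Same F t r N (N n) σ ω ↔ Same F t r N' (N' n) σ ω := by
        unfold Same
        rw [h n le_rfl]
        refine forall₂_congr fun m hm => ?_
        have hmn := Finset.mem_range.mp (hN' n hm)
        rw [ih m hmn (fun i hi => h i (by omega))]
      simp only [this]
    rw [h1, h1]

lemma same_congr_net (hN : WF N) (hN' : WF N') {n : ℕ} (h : ∀ i < n, N i = N' i) {T : Finset ℕ}
    (hT : T ⊆ range n) (ω' ω : ℕ → S) : Same F t r N T ω' ω ↔ Same F t r N' T ω' ω := by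
  unfold Same
  refine forall₂_congr fun m hm => ?_
  rw [act_congr_net hN hN' m fun i hi => h i (by have := Finset.mem_range.mp (hT hm); omega)]

lemma pr_congr_net (hN : WF N) (hN' : WF N') {n : ℕ} (h : ∀ i < n, N i = N' i) {T : Finset ℕ}
    (hT : T ⊆ range n) (b : Bool) (k : ℕ) (ω : ℕ → S) :
    pr F t r N b k T ω = pr F t r N' b k T ω := by
  unfold pr
  refine Ex_congr fun σ => ?_
  simp only [same_congr_net hN hN' h hT]

/-- likelihood ratio of the observed actions of `T` -/
noncomputable def LR (F : Bool → S → ℝ) (t : Bool) (r : ℝ) (N : ℕ → Finset ℕ) (n : ℕ)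
    (T : Finset ℕ) (ω : ℕ → S) : ℝ := pr F t r N true n T ω / pr F t r N false n T ω

lemma LR_pos (hF : Law F) (hN : WF N) {n : ℕ} {T : Finset ℕ} (hT : T ⊆ range n) (ω : ℕ → S) :
    0 < LR F t r N n T ω := div_pos (pr_pos hF hN hT _ _) (pr_pos hF hN hT _ _)

lemma LR_same {T : Finset ℕ} {ω ω' : ℕ → S} (h : Same F t r N T ω ω') (n : ℕ) :
    LR F t r N n T ω = LR F t r N n T ω' := by
  unfold LR
  rw [pr_same h, pr_same h]

lemma LR_depOn (hN : WF N) {n : ℕ} {T : Finset ℕ} (hT : T ⊆ range n) (k : ℕ) :
    DepOn n (LR (S := S) F t r N k T) := by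
  intro ω ω' h
  unfold LR
  rw [pr_depOn hN hT _ _ ω ω' h, pr_depOn hN hT _ _ ω ω' h]

lemma LR_local (hF : Law F) (hN : WF N) {n m : ℕ} (h : n ≤ m) {T : Finset ℕ} (hT : T ⊆ range n)
    (ω : ℕ → S) : LR F t r N m T ω = LR F t r N n T ω := by
  unfold LR
  rw [pr_local hF hN h hT, pr_local hF hN h hT]

lemma LR_congr_net (hN : WF N) (hN' : WF N') {n : ℕ} (h : ∀ i < n, N i = N' i) {T : Finset ℕ}
    (hT : T ⊆ range n) (k : ℕ) (ω : ℕ → S) :
    LR F t r N k T ω = LR F t r N' k T ω := by
  unfold LR
  rw [pr_congr_net hN hN' h hT, pr_congr_net hN hN' h hT]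

/-- attach the network `G` at position `n`; all its agents also observe `T` -/
def attach (N : ℕ → Finset ℕ) (n : ℕ) (T : Finset ℕ) (G : ℕ → Finset ℕ) : ℕ → Finset ℕ :=
  fun i => if i < n then N i else T ∪ (G (i - n)).map (addLeftEmbedding n)

lemma attach_lt {n : ℕ} {T : Finset ℕ} {i : ℕ} (h : i < n) : attach N n T G i = N i := by
  simp [attach, h]

lemma attach_ge {n : ℕ} {T : Finset ℕ} (i : ℕ) :
    attach N n T G (n + i) = T ∪ (G i).map (addLeftEmbedding n) := by
  simp [attach]

lemma attach_WF (hN : WF N) (hG : WF G) {n : ℕ} {T : Finset ℕ} (hT : T ⊆ range n) :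
    WF (attach N n T G) := by
  intro i m hm
  unfold attach at hm
  split_ifs at hm with h
  · exact hN i hm
  · rw [Finset.mem_union] at hm
    rcases hm with hm | hm
    · have := Finset.mem_range.mp (hT hm)
      exact Finset.mem_range.mpr (by omega)
    · rw [Finset.mem_map] at hm
      obtain ⟨a, ha, rfl⟩ := hm
      have := Finset.mem_range.mp (hG _ ha)
      simp only [addLeftEmbedding_apply]
      exact Finset.mem_range.mpr (by omega)

/-- the core factorisation -/
lemma pr_attach_aux (hF : Law F) (hN : WF N) (hG : WF G) {n : ℕ} {B : Finset ℕ}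
    (hB : B ⊆ range n) (i : ℕ)
    (H : ∀ j < i, ∀ ω : ℕ → S, act F t r (attach N n B G) (n + j) ω =
      act F t (r * LR F t r N n B ω) G j (shift n ω))
    {T : Finset ℕ} (hT : T ⊆ range n) (hBT : B ⊆ T) {U : Finset ℕ} (hU : U ⊆ range i)
    (b : Bool) (ω : ℕ → S) :
    pr F t r (attach N n B G) b (n + i) (T ∪ U.map (addLeftEmbedding n)) ω =
      pr F t r N b n T ω * pr F t (r * LR F t r N n B ω) G b i U (shift n ω) := by
  classical
  have hW := attach_WF hN hG hB
  unfold pr
  have h1 : ∀ ω' : ℕ → S,
      ind (Same F t r (attach N n B G) (T ∪ U.map (addLeftEmbedding n)) ω' ω) =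
      ind (Same F t r N T ω' ω) *
        ind (Same F t (r * LR F t r N n B ω) G U (shift n ω') (shift n ω)) := by
    intro ω'
    have hA : Same F t r (attach N n B G) (T ∪ U.map (addLeftEmbedding n)) ω' ω ↔
        Same F t r N T ω' ω ∧
          Same F t (r * LR F t r N n B ω) G U (shift n ω') (shift n ω) := by
      constructor
      · intro h
        have h1 : Same F t r N T ω' ω :=
          (same_congr_net hW hN (fun i hi => attach_lt hi) hT ω' ω).mp
            (same_mono Finset.subset_union_left h)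
        refine ⟨h1, fun m hm => ?_⟩
        have h2 := h (n + m) (Finset.mem_union_right _ (Finset.mem_map.mpr ⟨m, hm, rfl⟩))
        have hmi := Finset.mem_range.mp (hU hm)
        rw [H m hmi, H m hmi] at h2
        rwa [LR_same (same_mono hBT h1)] at h2
      · rintro ⟨h1, h2⟩ m hm
        rw [Finset.mem_union] at hm
        rcases hm with hm | hm
        · exact (same_congr_net hW hN (fun i hi => attach_lt hi) hT ω' ω).mpr h1 m hm
        · rw [Finset.mem_map] at hm
          obtain ⟨u, hu, rfl⟩ := hm
          have hui := Finset.mem_range.mp (hU hu)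
          simp only [addLeftEmbedding_apply]
          rw [H u hui, H u hui, LR_same (same_mono hBT h1)]
          exact h2 u hu
    rw [← ind_and]
    exact ind_congr hA
  rw [Ex_congr h1]
  refine Ex_prod (h := fun σ => ind (Same F t (r * LR F t r N n B ω) G U σ (shift n ω))) ?_
  intro σ σ' h
  exact congrArg ind (same_depOn (F := F) (t := t) (r := r) hN hT ω σ σ' h)

lemma act_attach_lt (hN : WF N) (hG : WF G) {n : ℕ} {B : Finset ℕ} (hB : B ⊆ range n) {i : ℕ}
    (hi : i < n) : act F t r (attach N n B G) i = act (S := S) F t r N i :=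
  act_congr_net (attach_WF hN hG hB) hN i fun _ hj => attach_lt (by omega)

lemma act_attach_ge (hF : Law F) (hN : WF N) (hG : WF G) {n : ℕ} {B : Finset ℕ}
    (hB : B ⊆ range n) : ∀ (i : ℕ) (ω : ℕ → S), act F t r (attach N n B G) (n + i) ω =
      act F t (r * LR F t r N n B ω) G i (shift n ω) := by
  intro i
  induction i using Nat.strong_induction_on with
  | _ i ih =>
    intro ω
    rw [act_eq (attach_WF hN hG hB), act_eq hG, attach_ge]
    rw [pr_attach_aux hF hN hG hB i ih hB (Finset.Subset.refl _) (hG i) true ω,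
      pr_attach_aux hF hN hG hB i ih hB (Finset.Subset.refl _) (hG i) false ω]
    have hp : 0 < pr F t r N false n B ω := pr_pos hF hN hB _ _
    have e1 : r * (pr F t r N true n B ω *
        pr F t (r * LR F t r N n B ω) G true i (G i) (shift n ω)) * F true (ω (n + i)) =
        pr F t r N false n B ω * (r * LR F t r N n B ω *
          pr F t (r * LR F t r N n B ω) G true i (G i) (shift n ω) * F true (shift n ω i)) := by
      unfold LR shift
      field_simp
    have e2 : pr F t r N false n B ω *
        pr F t (r * LR F t r N n B ω) G false i (G i) (shift n ω) * F false (ω (n + i)) =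
        pr F t r N false n B ω * (
          pr F t (r * LR F t r N n B ω) G false i (G i) (shift n ω) * F false (shift n ω i)) := by
      unfold shift
      ring
    rw [e1, e2, dec_mul hp]

/-- factorisation of the probability of an observation -/
lemma pr_attach (hF : Law F) (hN : WF N) (hG : WF G) {n : ℕ} {B : Finset ℕ}
    (hB : B ⊆ range n) (i : ℕ)
    {T : Finset ℕ} (hT : T ⊆ range n) (hBT : B ⊆ T) {U : Finset ℕ} (hU : U ⊆ range i)
    (b : Bool) (ω : ℕ → S) :
    pr F t r (attach N n B G) b (n + i) (T ∪ U.map (addLeftEmbedding n)) ω =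
      pr F t r N b n T ω * pr F t (r * LR F t r N n B ω) G b i U (shift n ω) :=
  pr_attach_aux hF hN hG hB i (fun j _ ω => act_attach_ge hF hN hG hB j ω) hT hBT hU b ω

lemma LR_attach (hF : Law F) (hN : WF N) (hG : WF G) {n : ℕ} {B : Finset ℕ}
    (hB : B ⊆ range n) (i : ℕ)
    {T : Finset ℕ} (hT : T ⊆ range n) (hBT : B ⊆ T) {U : Finset ℕ} (hU : U ⊆ range i)
    (ω : ℕ → S) :
    LR F t r (attach N n B G) (n + i) (T ∪ U.map (addLeftEmbedding n)) ω =
      LR F t r N n T ω * LR F t (r * LR F t r N n B ω) G i U (shift n ω) := by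
  rw [LR, pr_attach hF hN hG hB i hT hBT hU, pr_attach hF hN hG hB i hT hBT hU]
  unfold LR
  rw [mul_div_mul_comm]

end Pool.Agent.MP_a79c01_pr
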