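import Mathlib

/-!
Finite-horizon expectations of functions of an i.i.d. sequence of signals.
-/

set_option autoImplicit false

namespace Pool.Agent.MP_a79c01_pr

open Finset

variable {S : Type} [Fintype S] [Inhabited S]

/-- extend a finite sequence of signals by the default signal -/
def ext (n : ℕ) (x : Fin n → S) : ℕ → S := fun i => if h : i < n then x ⟨i, h⟩ else default

/-- the first `n` terms of `ω` followed by `σ` -/
def glue (n : ℕ) (ω σ : ℕ → S) : ℕ → S := fun i => if i < n then ω i else σ (i - n)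

/-- the sequence from position `n` on -/
def shift (n : ℕ) (ω : ℕ → S) : ℕ → S := fun i => ω (n + i)

open Classical in
/-- the indicator of a proposition -/
noncomputable def ind (P : Prop) : ℝ := if P then 1 else 0

lemma ind_true {P : Prop} (h : P) : ind P = 1 := by simp [ind, h]

lemma ind_false {P : Prop} (h : ¬ P) : ind P = 0 := by simp [ind, h]

lemma ind_nonneg (P : Prop) : 0 ≤ ind P := by
  by_cases h : P
  · rw [ind_true h]; norm_num
  · rw [ind_false h]

lemma ind_le_one (P : Prop) : ind P ≤ 1 := by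
  by_cases h : P
  · rw [ind_true h]
  · rw [ind_false h]; norm_num

lemma ind_and (P Q : Prop) : ind (P ∧ Q) = ind P * ind Q := by
  by_cases h : P <;> by_cases h' : Q <;> simp [ind, h, h']

lemma ind_mono {P Q : Prop} (h : P → Q) : ind P ≤ ind Q := by
  by_cases hP : P
  · rw [ind_true hP, ind_true (h hP)]
  · rw [ind_false hP]; exact ind_nonneg Q

lemma ind_congr {P Q : Prop} (h : P ↔ Q) : ind P = ind Q := by rw [propext h]

lemma ind_or_le (P Q : Prop) : ind (P ∨ Q) ≤ ind P + ind Q := by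
  by_cases h : P <;> by_cases h' : Q <;> simp [ind, h, h']

lemma ind_not (P : Prop) : ind (¬ P) = 1 - ind P := by
  by_cases h : P <;> simp [ind, h]

/-- expectation of `f` when the first `n` signals are i.i.d. with weights `p` -/
def Ex (p : S → ℝ) (n : ℕ) (f : (ℕ → S) → ℝ) : ℝ :=
  ∑ x : Fin n → S, (∏ i, p (x i)) * f (ext n x)

/-- `f` depends on the first `n` signals only -/
def DepOn {α : Type} (n : ℕ) (f : (ℕ → S) → α) : Prop :=
  ∀ ω ω' : ℕ → S, (∀ i < n, ω i = ω' i) → f ω = f ω'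

omit [Fintype S] in
lemma ext_apply_lt (n : ℕ) (x : Fin n → S) (i : ℕ) (h : i < n) : ext n x i = x ⟨i, h⟩ := by
  simp [ext, h]

omit [Fintype S] [Inhabited S] in
lemma shift_glue (n : ℕ) (ω σ : ℕ → S) : shift n (glue n ω σ) = σ := by
  funext i
  simp [shift, glue]

omit [Fintype S] [Inhabited S] in
lemma glue_shift (n : ℕ) (ω : ℕ → S) : glue n ω (shift n ω) = ω := by
  funext i
  unfold shift glue
  split_ifs with h
  · rfl
  · have : n + (i - n) = i := by omega
    change ω (n + (i - n)) = ω i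
    rw [this]

omit [Fintype S] [Inhabited S] in
lemma glue_lt (n : ℕ) (ω σ : ℕ → S) (i : ℕ) (h : i < n) : glue n ω σ i = ω i := by
  simp [glue, h]

omit [Fintype S] in
lemma ext_append (n g : ℕ) (x : Fin n → S) (y : Fin g → S) :
    ext (n + g) (Fin.append x y) = glue n (ext n x) (ext g y) := by
  funext i
  unfold ext glue
  by_cases h1 : i < n
  · have h2 : i < n + g := by omega
    simp only [h1, h2, dif_pos, if_true]
    have : (⟨i, h2⟩ : Fin (n + g)) = Fin.castAdd g ⟨i, h1⟩ := rfl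
    rw [this, Fin.append_left]
  · simp only [h1, if_false]
    by_cases h2 : i < n + g
    · have h3 : i - n < g := by omega
      simp only [h2, h3, dif_pos]
      have : (⟨i, h2⟩ : Fin (n + g)) = Fin.natAdd n ⟨i - n, h3⟩ := by
        ext; simp; omega
      rw [this, Fin.append_right]
    · have h3 : ¬ i - n < g := by omega
      simp only [h2, h3, dif_neg, not_false_iff]

lemma Ex_add (p : S → ℝ) (n g : ℕ) (f : (ℕ → S) → ℝ) :
    Ex p (n + g) f = Ex p n (fun ω => Ex p g (fun σ => f (glue n ω σ))) := by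
  unfold Ex
  rw [← (Fin.appendEquiv n g).sum_comp, Fintype.sum_prod_type]
  refine Finset.sum_congr rfl fun x _ => ?_
  rw [Finset.mul_sum]
  refine Finset.sum_congr rfl fun y _ => ?_
  have h1 : (Fin.appendEquiv n g) (x, y) = Fin.append x y := rfl
  rw [h1, ext_append, Fin.prod_univ_add]
  simp only [Fin.append_left, Fin.append_right]
  ring

lemma Ex_const (p : S → ℝ) (hp : ∑ s, p s = 1) (n : ℕ) (c : ℝ) : Ex p n (fun _ => c) = c := by
  unfold Ex
  rw [← Finset.sum_mul]
  have := Finset.prod_univ_sum (fun _ : Fin n => (Finset.univ : Finset S)) (fun _ s => p s)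
  simp only [Fintype.piFinset_univ] at this
  rw [← this]
  simp [hp]

lemma Ex_congr {p : S → ℝ} {n : ℕ} {f g : (ℕ → S) → ℝ} (h : ∀ ω, f ω = g ω) :
    Ex p n f = Ex p n g := by
  unfold Ex
  exact Finset.sum_congr rfl fun x _ => by rw [h]

lemma Ex_mono {p : S → ℝ} (hp : ∀ s, 0 ≤ p s) {n : ℕ} {f g : (ℕ → S) → ℝ} (h : ∀ ω, f ω ≤ g ω) :
    Ex p n f ≤ Ex p n g := by
  unfold Ex
  exact Finset.sum_le_sum fun x _ =>
    mul_le_mul_of_nonneg_left (h _) (Finset.prod_nonneg fun i _ => hp _)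

lemma Ex_nonneg {p : S → ℝ} (hp : ∀ s, 0 ≤ p s) {n : ℕ} {f : (ℕ → S) → ℝ} (h : ∀ ω, 0 ≤ f ω) :
    0 ≤ Ex p n f := by
  unfold Ex
  exact Finset.sum_nonneg fun x _ => mul_nonneg (Finset.prod_nonneg fun i _ => hp _) (h _)

lemma Ex_mul_left (p : S → ℝ) (n : ℕ) (c : ℝ) (f : (ℕ → S) → ℝ) :
    Ex p n (fun ω => c * f ω) = c * Ex p n f := by
  unfold Ex
  rw [Finset.mul_sum]
  exact Finset.sum_congr rfl fun x _ => by ring

lemma Ex_mul_right (p : S → ℝ) (n : ℕ) (c : ℝ) (f : (ℕ → S) → ℝ) :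
    Ex p n (fun ω => f ω * c) = Ex p n f * c := by
  unfold Ex
  rw [Finset.sum_mul]
  exact Finset.sum_congr rfl fun x _ => by ring

lemma Ex_add_fun (p : S → ℝ) (n : ℕ) (f g : (ℕ → S) → ℝ) :
    Ex p n (fun ω => f ω + g ω) = Ex p n f + Ex p n g := by
  unfold Ex
  rw [← Finset.sum_add_distrib]
  exact Finset.sum_congr rfl fun x _ => by ring

lemma Ex_sub_fun (p : S → ℝ) (n : ℕ) (f g : (ℕ → S) → ℝ) :
    Ex p n (fun ω => f ω - g ω) = Ex p n f - Ex p n g := by
  unfold Ex
  rw [← Finset.sum_sub_distrib]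
  exact Finset.sum_congr rfl fun x _ => by ring

lemma Ex_sum_fun {ι : Type} (p : S → ℝ) (n : ℕ) (I : Finset ι) (f : ι → (ℕ → S) → ℝ) :
    Ex p n (fun ω => ∑ i ∈ I, f i ω) = ∑ i ∈ I, Ex p n (f i) := by
  unfold Ex
  rw [Finset.sum_comm]
  exact Finset.sum_congr rfl fun x _ => by rw [Finset.mul_sum]

lemma Ex_local {p : S → ℝ} (hp : ∑ s, p s = 1) {n : ℕ} (g : ℕ) {f : (ℕ → S) → ℝ}
    (hf : DepOn n f) : Ex p (n + g) f = Ex p n f := by
  rw [Ex_add]
  refine Ex_congr fun ω => ?_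
  have : (fun σ => f (glue n ω σ)) = fun _ => f ω := by
    funext σ
    exact hf _ _ fun i hi => glue_lt n ω σ i hi
  rw [this, Ex_const p hp]

lemma Ex_local' {p : S → ℝ} (hp : ∑ s, p s = 1) {n m : ℕ} (h : n ≤ m) {f : (ℕ → S) → ℝ}
    (hf : DepOn n f) : Ex p m f = Ex p n f := by
  obtain ⟨g, rfl⟩ := Nat.exists_eq_add_of_le h
  exact Ex_local hp g hf

lemma Ex_prod {p : S → ℝ} {n g : ℕ} {f h : (ℕ → S) → ℝ}
    (hf : DepOn n f) :
    Ex p (n + g) (fun ω => f ω * h (shift n ω)) = Ex p n f * Ex p g h := by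
  rw [Ex_add]
  rw [← Ex_mul_right]
  refine Ex_congr fun ω => ?_
  rw [← Ex_mul_left]
  refine Ex_congr fun σ => ?_
  rw [shift_glue, hf _ ω (fun i hi => glue_lt n ω σ i hi)]

lemma Ex_pos {p : S → ℝ} (hp : ∀ s, 0 < p s) {n : ℕ} {f : (ℕ → S) → ℝ} (h : ∀ ω, 0 ≤ f ω)
    (hf : DepOn n f) (ω : ℕ → S) (hω : 0 < f ω) : 0 < Ex p n f := by
  unfold Ex
  refine Finset.sum_pos' (fun x _ => mul_nonneg (Finset.prod_nonneg fun i _ => (hp _).le) (h _))
    ⟨fun i => ω i, Finset.mem_univ _, ?_⟩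
  have : f (ext n fun i => ω i) = f ω := hf _ _ fun i hi => by simp [ext, hi]
  rw [this]
  exact mul_pos (Finset.prod_pos fun i _ => hp _) hω

/-- strict monotonicity -/
lemma Ex_lt {p : S → ℝ} (hp : ∀ s, 0 < p s) {n : ℕ} {f g : (ℕ → S) → ℝ} (h : ∀ ω, f ω ≤ g ω)
    (hf : DepOn n f) (hg : DepOn n g) (ω : ℕ → S) (hω : f ω < g ω) : Ex p n f < Ex p n g := by
  have := Ex_pos (n := n) (f := fun ω => g ω - f ω) hp (fun ω => sub_nonneg.mpr (h ω))
    (fun a b hab => by simp only [hf a b hab, hg a b hab]) ω (sub_pos.mpr hω)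
  rw [Ex_sub_fun] at this
  linarith

/-- probability of a product event -/
lemma Ex_product {p : S → ℝ} (hp : ∑ s, p s = 1) {n : ℕ} (T : Finset ℕ) (hT : T ⊆ range n)
    (E : ℕ → S → Prop) :
    Ex p n (fun ω => ind (∀ m ∈ T, E m (ω m))) =
      ∏ m ∈ T, ∑ s, p s * ind (E m s) := by
  classical
  have h0 : ∀ m, ∑ s, p s * ind (E m s) = ∑ s, if E m s then p s else 0 := by
    intro m
    refine Finset.sum_congr rfl fun s _ => ?_
    by_cases h : E m s
    · rw [ind_true h, if_pos h, mul_one]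
    · rw [ind_false h, if_neg h, mul_zero]
  simp only [h0]
  have h0' : ∀ ω : ℕ → S, ind (∀ m ∈ T, E m (ω m)) =
      if ∀ m ∈ T, E m (ω m) then (1 : ℝ) else 0 := by
    intro ω
    by_cases h : ∀ m ∈ T, E m (ω m)
    · rw [ind_true h, if_pos h]
    · rw [ind_false h, if_neg h]
  simp only [h0']
  unfold Ex
  have h1 : ∀ x : Fin n → S, (∏ i, p (x i)) * (if ∀ m ∈ T, E m (ext n x m) then 1 else 0) =
      ∏ i : Fin n, (if (i : ℕ) ∈ T → E i (x i) then p (x i) else 0) := by
    intro x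
    by_cases h : ∀ m ∈ T, E m (ext n x m)
    · rw [if_pos h, mul_one]
      refine Finset.prod_congr rfl fun i _ => ?_
      rw [if_pos]
      intro hi
      have := h i hi
      rwa [ext_apply_lt n x i i.2] at this
    · rw [if_neg h, mul_zero]
      push Not at h
      obtain ⟨m, hm, hE⟩ := h
      have hmn : m < n := Finset.mem_range.mp (hT hm)
      symm
      apply Finset.prod_eq_zero (Finset.mem_univ (⟨m, hmn⟩ : Fin n))
      rw [if_neg]
      intro h
      apply hE
      rw [ext_apply_lt n x m hmn]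
      exact h hm
  rw [Finset.sum_congr rfl fun x _ => h1 x]
  have h2 := Finset.prod_univ_sum (fun _ : Fin n => (Finset.univ : Finset S))
    (fun (i : Fin n) s => if (i : ℕ) ∈ T → E i s then p s else 0)
  simp only [Fintype.piFinset_univ] at h2
  rw [← h2]
  have h3 : ∀ i : Fin n, (∑ s, if (i : ℕ) ∈ T → E i s then p s else 0) =
      (fun i : ℕ => if i ∈ T then (∑ s, if E i s then p s else 0) else 1) i := by
    intro i
    by_cases hi : (i : ℕ) ∈ T
    · simp [hi]
    · simp [hi, hp]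
  rw [Finset.prod_congr rfl fun i _ => h3 i]
  rw [Fin.prod_univ_eq_prod_range
    (fun i : ℕ => if i ∈ T then (∑ s, if E i s then p s else 0) else 1) n]
  rw [Finset.prod_ite, Finset.prod_const_one, mul_one]
  congr 1
  ext m
  simp only [Finset.mem_filter, Finset.mem_range]
  exact ⟨fun h => h.2, fun h => ⟨Finset.mem_range.mp (hT h), h⟩⟩

end Pool.Agent.MP_a79c01_pr
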