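import Pool.Agent.MP_a79c01_pr.Info

/-!
The unanimity gadget: a finite network in which every outcome has an observed set of agents whose
actions have likelihood ratio below one.
-/

set_option autoImplicit false

namespace Pool.Agent.MP_a79c01_pr

open Finset

variable {S : Type} [Fintype S] [Inhabited S]
variable {F : Bool → S → ℝ} {t : Bool} {r : ℝ} {N N' G : ℕ → Finset ℕ}

/-- decision with prior odds `ρ` and own signal `s` only -/
noncomputable def lev (F : Bool → S → ℝ) (t : Bool) (ρ : ℝ) (s : S) : Bool :=
  dec t (ρ * F true s) (F false s)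

/-- probability in state `b` of the decision `v` with prior odds `ρ` -/
noncomputable def lp (F : Bool → S → ℝ) (t : Bool) (ρ : ℝ) (b v : Bool) : ℝ :=
  ∑ s, F b s * ind (lev F t ρ s = v)

omit [Inhabited S] in
lemma lp_nonneg (hF : Law F) (ρ : ℝ) (b v : Bool) : 0 ≤ lp F t ρ b v :=
  Finset.sum_nonneg fun s _ => mul_nonneg (hF.pos b s).le (ind_nonneg _)

omit [Inhabited S] in
lemma lp_pos (hF : Law F) (ρ : ℝ) (b v : Bool) (s : S) (h : lev F t ρ s = v) :
    0 < lp F t ρ b v :=
  Finset.sum_pos' (fun s _ => mul_nonneg (hF.pos b s).le (ind_nonneg _))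
    ⟨s, Finset.mem_univ _, by rw [ind_true h, mul_one]; exact hF.pos b s⟩

omit [Inhabited S] in
lemma lp_add (hF : Law F) (ρ : ℝ) (b : Bool) : lp F t ρ b true + lp F t ρ b false = 1 := by
  unfold lp
  rw [← Finset.sum_add_distrib, ← hF.sum b]
  refine Finset.sum_congr rfl fun s _ => ?_
  cases lev F t ρ s
  · rw [ind_true rfl, ind_false (by simp)]; ring
  · rw [ind_true rfl, ind_false (by simp)]; ring

omit [Inhabited S] in
/-- the evidence of a positive decision is at least `1/ρ` -/
lemma lp_true_ge (ρ : ℝ) : lp F t ρ false true ≤ ρ * lp F t ρ true true := by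
  unfold lp
  rw [Finset.mul_sum]
  refine Finset.sum_le_sum fun s _ => ?_
  by_cases h : lev F t ρ s = true
  · rw [ind_true h]
    have := le_of_dec_true h
    linarith
  · rw [ind_false h]; simp

omit [Inhabited S] in
lemma lp_false_le (ρ : ℝ) : ρ * lp F t ρ true false ≤ lp F t ρ false false := by
  unfold lp
  rw [Finset.mul_sum]
  refine Finset.sum_le_sum fun s _ => ?_
  by_cases h : lev F t ρ s = false
  · rw [ind_true h]
    have := le_of_dec_false h
    linarith
  · rw [ind_false h]; simp

lemma act_empty (hF : Law F) (hN : WF N) {n : ℕ} (h : N n = ∅) (ω : ℕ → S) :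
    act F t r N n ω = lev F t r (ω n) := by
  rw [act_eq hN, h, pr_empty hF, pr_empty hF]
  unfold lev
  simp

/-- the hypotheses on the prior odds under which the gadget works -/
structure Zone (F : Bool → S → ℝ) (t : Bool) (r : ℝ) : Prop where
  hr : 0 < r
  up : ∃ s, F false s < r * F true s
  dn : ∃ s, r * F true s < F false s
  next : ∃ s, lev F t (r * (lp F t r true true / lp F t r false true)) s = false
  sep : lp F t (r * (lp F t r true true / lp F t r false true)) true false *
      lp F t (r * (lp F t r true false / lp F t r false false)) false false <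
    lp F t (r * (lp F t r true false / lp F t r false false)) true false *
      lp F t (r * (lp F t r true true / lp F t r false true)) false false

section gadget

variable (m k d : ℕ)

/-- start of block `q` -/
def blk (q : ℕ) : ℕ := m + k + q * (d + 1)

/-- the gadget -/
def gad (n : ℕ) : Finset ℕ :=
  if n < m + k then ∅ else
    if (n - (m + k)) % (d + 1) < d then {m + ((n - (m + k)) / (d + 1)) % k}
    else range m ∪ {m + ((n - (m + k)) / (d + 1)) % k} ∪
      Finset.Ico (blk m k d ((n - (m + k)) / (d + 1))) (blk m k d ((n - (m + k)) / (d + 1)) + d)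

lemma gad_B {n : ℕ} (h : n < m + k) : gad m k d n = ∅ := by simp [gad, h]

lemma blk_div (q l : ℕ) (hl : l ≤ d) : (blk m k d q + l - (m + k)) / (d + 1) = q ∧
    (blk m k d q + l - (m + k)) % (d + 1) = l := by
  have h : blk m k d q + l - (m + k) = l + (d + 1) * q := by
    unfold blk
    have : q * (d + 1) = (d + 1) * q := Nat.mul_comm _ _
    omega
  rw [h]
  constructor
  · rw [Nat.add_mul_div_left _ _ (Nat.succ_pos d), Nat.div_eq_of_lt (by omega), zero_add]
  · rw [Nat.add_mul_mod_self_left, Nat.mod_eq_of_lt (by omega)]

lemma gad_C (q l : ℕ) (hl : l < d) : gad m k d (blk m k d q + l) = {m + q % k} := by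
  obtain ⟨h1, h2⟩ := blk_div m k d q l hl.le
  unfold gad
  have h3 : ¬ blk m k d q + l < m + k := by unfold blk; omega
  rw [if_neg h3, h1, h2, if_pos hl]

lemma gad_D (q : ℕ) : gad m k d (blk m k d q + d) = range m ∪ {m + q % k} ∪
      Finset.Ico (blk m k d q) (blk m k d q + d) := by
  obtain ⟨h1, h2⟩ := blk_div m k d q d le_rfl
  unfold gad
  have h3 : ¬ blk m k d q + d < m + k := by unfold blk; omega
  rw [if_neg h3, h1, h2, if_neg (lt_irrefl d)]

lemma gad_WF (hk : 0 < k) : WF (gad m k d) := by
  intro n
  by_cases h : n < m + k
  · rw [gad_B m k d h]; exact Finset.empty_subset _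
  · obtain ⟨q, l, hl, rfl⟩ : ∃ q l, l ≤ d ∧ n = blk m k d q + l := by
      refine ⟨(n - (m + k)) / (d + 1), (n - (m + k)) % (d + 1), ?_, ?_⟩
      · have := Nat.mod_lt (n - (m + k)) (by omega : 0 < d + 1)
        omega
      · unfold blk
        have h2 := Nat.div_add_mod (n - (m + k)) (d + 1)
        rw [Nat.mul_comm] at h2
        omega
    have hq := Nat.mod_lt q hk
    have hb : m + k ≤ blk m k d q := by unfold blk; omega
    rcases hl.lt_or_eq with hl | hl
    · rw [gad_C m k d q l hl]
      intro x hx
      rw [Finset.mem_singleton] at hx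
      exact Finset.mem_range.mpr (by omega)
    · subst hl
      rw [gad_D]
      intro x hx
      rw [Finset.mem_union, Finset.mem_union, Finset.mem_singleton, Finset.mem_range,
        Finset.mem_Ico] at hx
      exact Finset.mem_range.mpr (by omega)

variable {m k d}

lemma act_AB (hF : Law F) (hk : 0 < k) {n : ℕ} (h : n < m + k) (ω : ℕ → S) :
    act F t r (gad m k d) n ω = lev F t r (ω n) :=
  act_empty hF (gad_WF m k d hk) (gad_B m k d h) ω

/-- prior odds after seeing the action `v` of a first level agent -/
noncomputable def rat (F : Bool → S → ℝ) (t : Bool) (r : ℝ) (v : Bool) : ℝ :=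
  r * (lp F t r true v / lp F t r false v)

lemma pr_A (hF : Law F) (hk : 0 < k) {n i : ℕ} (hi : i < m + k) (hn : i < n) (b : Bool)
    (ω : ℕ → S) :
    pr F t r (gad m k d) b n {i} ω = lp F t r b (act F t r (gad m k d) i ω) := by
  have h := Ex_product (p := F b) (hF.sum b) (n := n) {i} (by simpa using hn)
    (fun j s => lev F t r s = act F t r (gad m k d) i ω)
  rw [Finset.prod_singleton] at h
  unfold lp
  rw [← h]
  unfold pr Same
  refine Ex_congr fun ω' => ind_congr ?_
  simp [act_AB hF hk hi]

lemma act_C (hF : Law F) (hk : 0 < k) (q l : ℕ) (hl : l < d) (ω : ℕ → S) :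
    act F t r (gad m k d) (blk m k d q + l) ω =
      lev F t (rat F t r (act F t r (gad m k d) (m + q % k) ω)) (ω (blk m k d q + l)) := by
  have hq := Nat.mod_lt q hk
  have hb : m + k ≤ blk m k d q := by unfold blk; omega
  rw [act_eq (gad_WF m k d hk), gad_C m k d q l hl, pr_A hF hk (by omega) (by omega),
    pr_A hF hk (by omega) (by omega)]
  unfold lev rat
  by_cases h0 : lp F t r false (act F t r (gad m k d) (m + q % k) ω) = 0
  · exfalso
    have := lp_pos (t := t) hF r false _ (ω (m + q % k))
      (act_AB (t := t) (r := r) (d := d) hF hk (by omega : m + q % k < m + k) ω).symm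
    linarith
  · have hpos : 0 < lp F t r false (act F t r (gad m k d) (m + q % k) ω) :=
      lt_of_le_of_ne (lp_nonneg hF _ _ _) (Ne.symm h0)
    have h1 := dec_mul (t := t) (y := r * (lp F t r true (act F t r (gad m k d) (m + q % k) ω) /
      lp F t r false (act F t r (gad m k d) (m + q % k) ω)) * F true (ω (blk m k d q + l)))
      (x := F false (ω (blk m k d q + l))) hpos
    rw [← h1]
    congr 1
    field_simp

/-- what the last agent of a block observes -/
lemma pr_D (hF : Law F) (hk : 0 < k) (q : ℕ) (b : Bool) (ω : ℕ → S) :
    pr F t r (gad m k d) b (blk m k d q + d) (gad m k d (blk m k d q + d)) ω =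
      (∏ j ∈ range m, lp F t r b (act F t r (gad m k d) j ω)) *
      lp F t r b (act F t r (gad m k d) (m + q % k) ω) *
      ∏ j ∈ Finset.Ico (blk m k d q) (blk m k d q + d),
        lp F t (rat F t r (act F t r (gad m k d) (m + q % k) ω)) b
          (act F t r (gad m k d) j ω) := by
  have hq := Nat.mod_lt q hk
  have hb : m + k ≤ blk m k d q := by unfold blk; omega
  set A := m + q % k with hA
  have hWF := gad_WF m k d hk
  have h := Ex_product (p := F b) (hF.sum b) (n := blk m k d q + d)
    (gad m k d (blk m k d q + d)) (hWF _)
    (fun j s => if j < m + k then lev F t r s = act F t r (gad m k d) j ω else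
      lev F t (rat F t r (act F t r (gad m k d) A ω)) s = act F t r (gad m k d) j ω)
  have hpr : pr F t r (gad m k d) b (blk m k d q + d) (gad m k d (blk m k d q + d)) ω =
      Ex (F b) (blk m k d q + d) (fun ω' => ind (∀ j ∈ gad m k d (blk m k d q + d),
        (fun j s => if j < m + k then lev F t r s = act F t r (gad m k d) j ω else
      lev F t (rat F t r (act F t r (gad m k d) A ω)) s = act F t r (gad m k d) j ω) j (ω' j))) := by
    unfold pr Same
    refine Ex_congr fun ω' => ind_congr ?_
    have hAmem : A ∈ gad m k d (blk m k d q + d) := by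
      rw [gad_D]
      simp [hA]
    have hdesc : ∀ j ∈ gad m k d (blk m k d q + d), j < m + k ∨
        ∃ l < d, j = blk m k d q + l := by
      intro j hj
      rw [gad_D, Finset.mem_union, Finset.mem_union, Finset.mem_singleton, Finset.mem_range,
        Finset.mem_Ico] at hj
      rcases hj with (hj | hj) | hj
      · left; omega
      · left; omega
      · right; exact ⟨j - blk m k d q, by omega, by omega⟩
    constructor
    · intro hs j hj
      have hAA := hs A hAmem
      rcases hdesc j hj with h1 | ⟨l, hl, rfl⟩
      · simp only [h1, if_true]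
        rw [← act_AB (t := t) (r := r) (d := d) hF hk h1 ω']
        exact hs j hj
      · have h1 : ¬ blk m k d q + l < m + k := by omega
        simp only [h1, if_false]
        rw [← hAA, ← act_C hF hk q l hl ω']
        exact hs _ hj
    · intro hs
      have hAA : act F t r (gad m k d) A ω' = act F t r (gad m k d) A ω := by
        have := hs A hAmem
        have hAlt : A < m + k := by omega
        simp only [hAlt, if_true] at this
        rw [act_AB hF hk hAlt ω']
        exact this
      intro j hj
      have hsj := hs j hj
      rcases hdesc j hj with h1 | ⟨l, hl, rfl⟩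
      · simp only [h1, if_true] at hsj
        rw [act_AB hF hk h1 ω']
        exact hsj
      · have h1 : ¬ blk m k d q + l < m + k := by omega
        simp only [h1, if_false] at hsj
        rw [act_C hF hk q l hl ω', ← hA, hAA]
        exact hsj
  rw [hpr, h]
  have hd1 : Disjoint (range m ∪ {m + q % k}) (Finset.Ico (blk m k d q) (blk m k d q + d)) := by
    rw [Finset.disjoint_left]
    intro x hx hx'
    rw [Finset.mem_union, Finset.mem_singleton, Finset.mem_range] at hx
    rw [Finset.mem_Ico] at hx'
    omega
  have hd2 : Disjoint (range m) {m + q % k} := by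
    rw [Finset.disjoint_left]
    intro x hx hx'
    rw [Finset.mem_range] at hx
    rw [Finset.mem_singleton] at hx'
    omega
  rw [gad_D, Finset.prod_union hd1, Finset.prod_union hd2, Finset.prod_singleton]
  congr 1
  · congr 1
    · refine Finset.prod_congr rfl fun j hj => ?_
      have : j < m + k := by have := Finset.mem_range.mp hj; omega
      unfold lp
      refine Finset.sum_congr rfl fun s _ => ?_
      simp only [this, if_true]
    · have : m + q % k < m + k := by omega
      unfold lp
      refine Finset.sum_congr rfl fun s _ => ?_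
      simp only [this, if_true, hA]
  · refine Finset.prod_congr rfl fun j hj => ?_
    have : ¬ j < m + k := by have := Finset.mem_Ico.mp hj; omega
    unfold lp
    refine Finset.sum_congr rfl fun s _ => ?_
    simp only [this, if_false]

end gadget

end Pool.Agent.MP_a79c01_pr
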