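import Pool.Agent.MP_a79c01_pr.Gadget

/-!
The unanimity gadget, continued.
-/

set_option autoImplicit false

namespace Pool.Agent.MP_a79c01_pr

open Finset

variable {S : Type} [Fintype S] [Inhabited S]
variable {F : Bool → S → ℝ} {t : Bool} {r : ℝ} {N N' G : ℕ → Finset ℕ}

omit [Inhabited S] in
lemma exists_Lam (hF : Law F) : ∃ Λ : ℝ, 1 < Λ ∧ ∀ s, F false s < Λ * F true s ∧
    F true s < Λ * F false s := by
  refine ⟨2 + ∑ s, (F false s / F true s + F true s / F false s), ?_, fun s => ?_⟩
  · have : 0 ≤ ∑ s, (F false s / F true s + F true s / F false s) :=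
      Finset.sum_nonneg fun s _ => add_nonneg (div_nonneg (hF.pos _ _).le (hF.pos _ _).le)
        (div_nonneg (hF.pos _ _).le (hF.pos _ _).le)
    linarith
  · have h1 : F false s / F true s + F true s / F false s ≤
        ∑ s, (F false s / F true s + F true s / F false s) :=
      Finset.single_le_sum (f := fun s => F false s / F true s + F true s / F false s)
        (fun s _ => add_nonneg (div_nonneg (hF.pos _ _).le (hF.pos _ _).le)
        (div_nonneg (hF.pos _ _).le (hF.pos _ _).le)) (Finset.mem_univ s)
    have hp := hF.pos true s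
    have hq := hF.pos false s
    have ha : 0 < F false s / F true s := div_pos hq hp
    have hb : 0 < F true s / F false s := div_pos hp hq
    constructor
    · have : F false s / F true s < 2 + ∑ s, (F false s / F true s + F true s / F false s) := by
        linarith
      rwa [div_lt_iff₀ hp] at this
    · have : F true s / F false s < 2 + ∑ s, (F false s / F true s + F true s / F false s) := by
        linarith
      rwa [div_lt_iff₀ hq] at this

omit [Inhabited S] in
lemma lev_mono {F : Bool → S → ℝ} (hF : Law F) {ρ ρ' : ℝ} (h : ρ' < ρ) {s : S}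
    (hs : lev F t ρ s = false) : lev F t ρ' s = false := by
  have h1 := le_of_dec_false hs
  apply dec_false_of_lt
  have := mul_lt_mul_of_pos_right h (hF.pos true s)
  linarith

/-- basic inequalities for the zone -/
structure ZoneFacts (F : Bool → S → ℝ) (t : Bool) (r a c μ₀ μ₁ δ Λ : ℝ) : Prop where
  hr : 0 < r
  ha : 1 < a
  hc0 : 0 < c
  hc1 : c < 1
  hμ1 : 0 < μ₁
  hμ : μ₁ < μ₀
  hμ0 : μ₀ ≤ 1
  hδ0 : 0 < δ
  hδ1 : δ ≤ 1
  hΛ : 1 < Λ
  hrΛ : r < Λ
  pf : 0 < lp F t r false true
  qf : 0 < lp F t r false false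
  pa : lp F t r true true = a * lp F t r false true
  qc : lp F t r true false = c * lp F t r false false
  r1 : lp F t (rat F t r true) true false = δ
  r2 : lp F t (rat F t r true) true false = μ₁ * lp F t (rat F t r true) false false
  r3 : ∀ v, μ₀ * lp F t (rat F t r false) false v ≤ lp F t (rat F t r false) true v
  L1 : ∀ s, F false s < Λ * F true s
  L0 : ∀ s, F true s < Λ * F false s

omit [Inhabited S] in
lemma zoneFacts {F : Bool → S → ℝ} (hF : Law F) (hZ : Zone F t r) :
    ∃ a c μ₀ μ₁ δ Λ, ZoneFacts F t r a c μ₀ μ₁ δ Λ := by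
  obtain ⟨hr, ⟨s₁, hs₁⟩, ⟨s₀, hs₀⟩, ⟨s₂, hs₂⟩, sep⟩ := hZ
  obtain ⟨Λ, hΛ, hL⟩ := exists_Lam hF
  have hl1 : lev F t r s₁ = true := dec_true_of_lt hs₁
  have hl0 : lev F t r s₀ = false := dec_false_of_lt hs₀
  have ptt := lp_pos (t := t) hF r true true s₁ hl1
  have pft := lp_pos (t := t) hF r false true s₁ hl1
  have ptf := lp_pos (t := t) hF r true false s₀ hl0
  have pff := lp_pos (t := t) hF r false false s₀ hl0
  have st := lp_add (t := t) hF r true
  have sf := lp_add (t := t) hF r false
  -- strict informativeness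
  have i1 : lp F t r false true < r * lp F t r true true := by
    unfold lp
    rw [Finset.mul_sum]
    refine Finset.sum_lt_sum (fun s _ => ?_) ⟨s₁, Finset.mem_univ _, ?_⟩
    · by_cases h : lev F t r s = true
      · rw [ind_true h]
        have := le_of_dec_true h
        linarith
      · rw [ind_false h]; simp
    · rw [ind_true hl1]; linarith
  have i0 : r * lp F t r true false < lp F t r false false := by
    unfold lp
    rw [Finset.mul_sum]
    refine Finset.sum_lt_sum (fun s _ => ?_) ⟨s₀, Finset.mem_univ _, ?_⟩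
    · by_cases h : lev F t r s = false
      · rw [ind_true h]
        have := le_of_dec_false h
        linarith
      · rw [ind_false h]; simp
    · rw [ind_true hl0]; linarith
  have hlt : lp F t r false true < lp F t r true true := by
    rcases le_total r 1 with h | h
    · nlinarith
    · nlinarith
  have hlt' : lp F t r true false < lp F t r false false := by linarith
  set a := lp F t r true true / lp F t r false true with ha
  set c := lp F t r true false / lp F t r false false with hc
  have ha1 : 1 < a := (one_lt_div pft).mpr hlt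
  have hc1 : c < 1 := (div_lt_one pff).mpr hlt'
  have hc0 : 0 < c := div_pos ptf pff
  have hrat : rat F t r true = r * a := rfl
  have hrat' : rat F t r false = r * c := rfl
  have hca : r * c < r * a := mul_lt_mul_of_pos_left (hc1.trans ha1) hr
  have hs₂' : lev F t (r * c) s₂ = false := lev_mono hF hca hs₂
  have q1 := lp_pos (t := t) hF (r * a) true false s₂ hs₂
  have q2 := lp_pos (t := t) hF (r * a) false false s₂ hs₂
  have q3 := lp_pos (t := t) hF (r * c) true false s₂ hs₂'
  have q4 := lp_pos (t := t) hF (r * c) false false s₂ hs₂'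
  have st' := lp_add (t := t) hF (r * c) true
  have sf' := lp_add (t := t) hF (r * c) false
  have stt' := lp_nonneg (t := t) hF (r * c) true true
  have sft' := lp_nonneg (t := t) hF (r * c) false true
  have g1 := lp_true_ge (F := F) (t := t) (r * c)
  have g0 := lp_false_le (F := F) (t := t) (r * c)
  have h4 : lp F t (r * c) true false ≤ lp F t (r * c) false false := by
    rcases le_total (r * c) 1 with h | h
    · have : lp F t (r * c) false true ≤ lp F t (r * c) true true := by nlinarith
      linarith
    · nlinarith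
  refine ⟨a, c, lp F t (r * c) true false / lp F t (r * c) false false,
    lp F t (r * a) true false / lp F t (r * a) false false,
    lp F t (r * a) true false, Λ, ?_⟩
  refine ⟨hr, ha1, hc0, hc1, div_pos q1 q2, ?_, (div_le_one q4).mpr h4, q1, ?_, hΛ, ?_, pft, pff,
    ?_, ?_, ?_, ?_, ?_, fun s => (hL s).1, fun s => (hL s).2⟩
  · rw [div_lt_div_iff₀ q2 q4]
    exact sep
  · have h1 := lp_add (t := t) hF (r * a) true
    have h2 := lp_nonneg (t := t) hF (r * a) true true
    linarith
  · have h1 := (hL s₀).1
    have h2 := hF.pos true s₀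
    by_contra hcon
    push Not at hcon
    nlinarith
  · rw [ha, div_mul_cancel₀ _ pft.ne']
  · rw [hc, div_mul_cancel₀ _ pff.ne']
  · rw [hrat]
  · rw [hrat, div_mul_cancel₀ _ q2.ne']
  · intro v
    rw [hrat']
    cases v
    · rw [div_mul_cancel₀ _ q4.ne']
    · have h5 : lp F t (r * c) true false / lp F t (r * c) false false ≤ 1 :=
        (div_le_one q4).mpr h4
      nlinarith

variable {m k d : ℕ}

lemma act_D_true (hF : Law F) (hk : 0 < k) {a c μ₀ μ₁ δ Λ : ℝ}
    (hZ : ZoneFacts F t r a c μ₀ μ₁ δ Λ) (hpar : Λ ≤ r * (a ^ m * c * μ₀ ^ d)) (q : ℕ)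
    (ω : ℕ → S) (hB : ∀ l < m, act F t r (gad m k d) l ω = true)
    (hA : act F t r (gad m k d) (m + q % k) ω = false) :
    act F t r (gad m k d) (blk m k d q + d) ω = true := by
  have hWF := gad_WF m k d hk
  rw [act_eq hWF]
  apply dec_true_of_lt
  set s := ω (blk m k d q + d)
  have hpos := pr_pos (t := t) (r := r) hF hWF (hWF (blk m k d q + d)) false ω
  have key : a ^ m * c * μ₀ ^ d *
      pr F t r (gad m k d) false (blk m k d q + d) (gad m k d (blk m k d q + d)) ω ≤
      pr F t r (gad m k d) true (blk m k d q + d) (gad m k d (blk m k d q + d)) ω := by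
    rw [pr_D hF hk, pr_D hF hk, hA]
    have e1 : ∀ b, ∏ j ∈ range m, lp F t r b (act F t r (gad m k d) j ω) =
        lp F t r b true ^ m := by
      intro b
      rw [Finset.prod_congr rfl fun j hj => by rw [hB j (Finset.mem_range.mp hj)]]
      simp
    rw [e1, e1, hZ.pa, hZ.qc, mul_pow]
    have e2 : μ₀ ^ d * ∏ j ∈ Finset.Ico (blk m k d q) (blk m k d q + d),
        lp F t (rat F t r false) false (act F t r (gad m k d) j ω) ≤
        ∏ j ∈ Finset.Ico (blk m k d q) (blk m k d q + d),
        lp F t (rat F t r false) true (act F t r (gad m k d) j ω) := by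
      have h1 : μ₀ ^ d = ∏ _j ∈ Finset.Ico (blk m k d q) (blk m k d q + d), μ₀ := by simp
      rw [h1, ← Finset.prod_mul_distrib]
      exact Finset.prod_le_prod (fun j _ => mul_nonneg (hZ.hμ1.trans hZ.hμ).le
        (lp_nonneg hF _ _ _)) fun j _ => hZ.r3 _
    have h0 : 0 ≤ a ^ m * lp F t r false true ^ m * (c * lp F t r false false) := by
      have := hZ.ha; have := hZ.hc0; have := hZ.pf; have := hZ.qf
      positivity
    calc _ = (a ^ m * lp F t r false true ^ m * (c * lp F t r false false)) *
          (μ₀ ^ d * ∏ j ∈ Finset.Ico (blk m k d q) (blk m k d q + d),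
        lp F t (rat F t r false) false (act F t r (gad m k d) j ω)) := by ring
      _ ≤ _ := mul_le_mul_of_nonneg_left e2 h0
  have hs1 := hF.pos true s
  have hL := hZ.L1 s
  set P0 := pr F t r (gad m k d) false (blk m k d q + d) (gad m k d (blk m k d q + d)) ω
  set P1 := pr F t r (gad m k d) true (blk m k d q + d) (gad m k d (blk m k d q + d)) ω
  calc P0 * F false s < P0 * (Λ * F true s) := mul_lt_mul_of_pos_left hL hpos
    _ = Λ * (P0 * F true s) := by ring
    _ ≤ r * (a ^ m * c * μ₀ ^ d) * (P0 * F true s) :=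
        mul_le_mul_of_nonneg_right hpar (by positivity)
    _ = r * (a ^ m * c * μ₀ ^ d * P0) * F true s := by ring
    _ ≤ r * P1 * F true s := by
        have := mul_le_mul_of_nonneg_left key hZ.hr.le
        exact mul_le_mul_of_nonneg_right this hs1.le

lemma act_D_false (hF : Law F) (hk : 0 < k) {a c μ₀ μ₁ δ Λ : ℝ}
    (hZ : ZoneFacts F t r a c μ₀ μ₁ δ Λ) (hpar : r * (a ^ (m + 1) * μ₁ ^ d) * Λ ≤ 1) (q : ℕ)
    (ω : ℕ → S) (hB : ∀ l < m, act F t r (gad m k d) l ω = true)
    (hA : act F t r (gad m k d) (m + q % k) ω = true)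
    (hC : ∀ l < d, act F t r (gad m k d) (blk m k d q + l) ω = false) :
    act F t r (gad m k d) (blk m k d q + d) ω = false := by
  have hWF := gad_WF m k d hk
  rw [act_eq hWF]
  apply dec_false_of_lt
  set s := ω (blk m k d q + d)
  have hpos := pr_pos (t := t) (r := r) hF hWF (hWF (blk m k d q + d)) false ω
  have key : pr F t r (gad m k d) true (blk m k d q + d) (gad m k d (blk m k d q + d)) ω =
      a ^ (m + 1) * μ₁ ^ d *
      pr F t r (gad m k d) false (blk m k d q + d) (gad m k d (blk m k d q + d)) ω := by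
    rw [pr_D hF hk, pr_D hF hk, hA]
    have e1 : ∀ b, ∏ j ∈ range m, lp F t r b (act F t r (gad m k d) j ω) =
        lp F t r b true ^ m := by
      intro b
      rw [Finset.prod_congr rfl fun j hj => by rw [hB j (Finset.mem_range.mp hj)]]
      simp
    have e2 : ∀ b, ∏ j ∈ Finset.Ico (blk m k d q) (blk m k d q + d),
        lp F t (rat F t r true) b (act F t r (gad m k d) j ω) =
        lp F t (rat F t r true) b false ^ d := by
      intro b
      have h1 : ∀ j ∈ Finset.Ico (blk m k d q) (blk m k d q + d),
          lp F t (rat F t r true) b (act F t r (gad m k d) j ω) =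
          lp F t (rat F t r true) b false := by
        intro j hj
        rw [Finset.mem_Ico] at hj
        have h2 := hC (j - blk m k d q) (by omega)
        have h3 : blk m k d q + (j - blk m k d q) = j := by omega
        rw [h3] at h2
        rw [h2]
      rw [Finset.prod_congr rfl h1]
      simp
    rw [e1, e1, e2, e2, hZ.pa, hZ.r2, mul_pow, mul_pow, pow_succ]
    ring
  have hL := hZ.L0 s
  have hf := hF.pos false s
  rw [key]
  set P0 := pr F t r (gad m k d) false (blk m k d q + d) (gad m k d (blk m k d q + d)) ω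
  have h1 : 0 < r * (a ^ (m + 1) * μ₁ ^ d) := by
    have := hZ.ha; have := hZ.hr; have := hZ.hμ1
    positivity
  calc r * (a ^ (m + 1) * μ₁ ^ d * P0) * F true s =
        r * (a ^ (m + 1) * μ₁ ^ d) * (P0 * F true s) := by ring
    _ < r * (a ^ (m + 1) * μ₁ ^ d) * (P0 * (Λ * F false s)) :=
        mul_lt_mul_of_pos_left (mul_lt_mul_of_pos_left hL hpos) h1
    _ = (r * (a ^ (m + 1) * μ₁ ^ d) * Λ) * (P0 * F false s) := by ring
    _ ≤ 1 * (P0 * F false s) := mul_le_mul_of_nonneg_right hpar (by positivity)
    _ = P0 * F false s := one_mul _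

omit [Inhabited S] in
lemma exists_md {a c μ₀ μ₁ δ Λ : ℝ}
    (hZ : ZoneFacts F t r a c μ₀ μ₁ δ Λ) : ∃ m d : ℕ, Λ ≤ r * (a ^ m * c * μ₀ ^ d) ∧
      r * (a ^ (m + 1) * μ₁ ^ d) * Λ ≤ 1 := by
  have hr := hZ.hr
  have ha := hZ.ha
  have hc0 := hZ.hc0
  have hc1 := hZ.hc1
  have hμ1 := hZ.hμ1
  have hμ0 : 0 < μ₀ := hZ.hμ1.trans hZ.hμ
  have hΛ := hZ.hΛ
  have hratio : μ₁ / μ₀ < 1 := (div_lt_one hμ0).mpr hZ.hμ
  obtain ⟨d, hd⟩ := exists_pow_lt_of_lt_one (show 0 < c / (Λ ^ 2 * a ^ 2) by positivity) hratio
  have hX : 0 < r * c * μ₀ ^ d := by positivity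
  have hex : ∃ m : ℕ, Λ ≤ r * (a ^ m * c * μ₀ ^ d) := by
    obtain ⟨m, hm⟩ := pow_unbounded_of_one_lt (Λ / (r * c * μ₀ ^ d)) ha
    refine ⟨m, ?_⟩
    rw [div_lt_iff₀ hX] at hm
    nlinarith
  classical
  refine ⟨Nat.find hex, d, Nat.find_spec hex, ?_⟩
  set M := Nat.find hex with hM
  have hM0 : M ≠ 0 := by
    intro h0
    have h1 := Nat.find_spec hex
    rw [← hM, h0, pow_zero, one_mul] at h1
    have h2 : μ₀ ^ d ≤ 1 := pow_le_one₀ hμ0.le hZ.hμ0
    have h3 : c * μ₀ ^ d ≤ 1 := by nlinarith [pow_pos hμ0 d]
    have h4 : r * (c * μ₀ ^ d) ≤ r := by nlinarith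
    linarith [hZ.hrΛ]
  obtain ⟨M', hM'⟩ := Nat.exists_eq_succ_of_ne_zero hM0
  have hlt : ¬ Λ ≤ r * (a ^ M' * c * μ₀ ^ d) := Nat.find_min hex (by omega)
  push Not at hlt
  rw [hM']
  have e : r * (a ^ (M' + 1 + 1) * μ₁ ^ d) * Λ =
      (r * (a ^ M' * c * μ₀ ^ d)) * (a ^ 2 / c * Λ) * (μ₁ / μ₀) ^ d := by
    rw [div_pow, pow_succ, pow_succ]
    field_simp
  rw [Nat.succ_eq_add_one, e]
  have h5 : (r * (a ^ M' * c * μ₀ ^ d)) * (a ^ 2 / c * Λ) ≤ Λ * (a ^ 2 / c * Λ) :=
    mul_le_mul_of_nonneg_right hlt.le (by positivity)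
  calc (r * (a ^ M' * c * μ₀ ^ d)) * (a ^ 2 / c * Λ) * (μ₁ / μ₀) ^ d ≤
        Λ * (a ^ 2 / c * Λ) * (c / (Λ ^ 2 * a ^ 2)) :=
        mul_le_mul h5 hd.le (by positivity) (by positivity)
    _ = 1 := by field_simp

/-- block start arithmetic -/
lemma blk_add (q q' : ℕ) : blk m k d (q + q') = blk m k d q + q' * (d + 1) := by
  unfold blk; ring

/-- probability that the observers of `A_i` never see a unanimously negative group -/
lemma no_bad (hF : Law F) (ρ : ℝ) (hk : 0 < k) {i : ℕ} (hi : i < k) (b : Bool) (J : ℕ) :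
    Ex (F b) (blk m k d (k * J)) (fun ω => ind (∀ j < J,
      ¬ ∀ l < d, lev F t ρ (ω (blk m k d (k * j + i) + l)) = false)) =
      (1 - lp F t ρ b false ^ d) ^ J := by
  induction J with
  | zero =>
    rw [Ex_congr (g := fun _ => 1) fun ω => ind_true (by intro j hj; omega)]
    rw [Ex_const _ (hF.sum b), pow_zero]
  | succ J ih =>
    have h1 : blk m k d (k * (J + 1)) = blk m k d (k * J) + k * (d + 1) := by
      rw [Nat.mul_succ, blk_add]
    rw [h1]
    have h2 : ∀ ω : ℕ → S, ind (∀ j < J + 1,
        ¬ ∀ l < d, lev F t ρ (ω (blk m k d (k * j + i) + l)) = false) =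
        ind (∀ j < J, ¬ ∀ l < d, lev F t ρ (ω (blk m k d (k * j + i) + l)) = false) *
        (fun σ : ℕ → S => ind (¬ ∀ l < d, lev F t ρ (σ (i * (d + 1) + l)) = false))
          (shift (blk m k d (k * J)) ω) := by
      intro ω
      simp only
      rw [← ind_and]
      refine ind_congr ?_
      have h3 : ∀ l, shift (blk m k d (k * J)) ω (i * (d + 1) + l) =
          ω (blk m k d (k * J + i) + l) := by
        intro l
        unfold shift
        rw [blk_add]
        congr 1
        ring
      simp only [h3]
      constructor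
      · intro h
        exact ⟨fun j hj => h j (by omega), h J (by omega)⟩
      · rintro ⟨h, h'⟩ j hj
        rcases Nat.lt_succ_iff_lt_or_eq.mp hj with hj | rfl
        · exact h j hj
        · exact h'
    rw [Ex_congr h2]
    refine (Ex_prod (p := F b) (n := blk m k d (k * J)) (g := k * (d + 1))
      (f := fun ω => ind (∀ j < J,
        ¬ ∀ l < d, lev F t ρ (ω (blk m k d (k * j + i) + l)) = false))
      (h := fun σ : ℕ → S => ind (¬ ∀ l < d, lev F t ρ (σ (i * (d + 1) + l)) = false))
      ?_).trans ?_
    rotate_left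
    · rw [ih, pow_succ]
      congr 1
      have h4 : ∀ ω : ℕ → S, ind (¬ ∀ l < d, lev F t ρ (ω (i * (d + 1) + l)) = false) =
          1 - ind (∀ j ∈ Finset.Ico (i * (d + 1)) (i * (d + 1) + d),
            lev F t ρ (ω j) = false) := by
        intro ω
        rw [ind_not]
        congr 1
        refine ind_congr ⟨fun h j hj => ?_, fun h l hl => h _ ?_⟩
        · rw [Finset.mem_Ico] at hj
          have := h (j - i * (d + 1)) (by omega)
          have h5 : i * (d + 1) + (j - i * (d + 1)) = j := by omega
          rwa [h5] at this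
        · rw [Finset.mem_Ico]; omega
      rw [Ex_congr h4, Ex_sub_fun, Ex_const _ (hF.sum b)]
      have h6 : Finset.Ico (i * (d + 1)) (i * (d + 1) + d) ⊆ range (k * (d + 1)) := by
        intro x hx
        rw [Finset.mem_Ico] at hx
        have : (i + 1) * (d + 1) ≤ k * (d + 1) := Nat.mul_le_mul_right _ hi
        rw [Finset.mem_range]
        have h7 : (i + 1) * (d + 1) = i * (d + 1) + (d + 1) := by ring
        omega
      rw [Ex_product (hF.sum b) _ h6 (fun _ s => lev F t ρ s = false)]
      simp [lp]
    · intro ω ω' h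
      refine ind_congr ?_
      refine forall₂_congr fun j hj => not_congr (forall₂_congr fun l hl => ?_)
      rw [h]
      have h5 : k * j + i + 1 ≤ k * J := by
        have : k * (j + 1) ≤ k * J := Nat.mul_le_mul_left _ hj
        have h6 : k * (j + 1) = k * j + k := by ring
        omega
      obtain ⟨e, he⟩ := Nat.exists_eq_add_of_le h5
      have h7 : blk m k d (k * j + i + 1 + e) = blk m k d (k * j + i) + (1 + e) * (d + 1) := by
        rw [add_assoc (k * j + i), blk_add]
      have h8 : 1 * (d + 1) ≤ (1 + e) * (d + 1) := Nat.mul_le_mul_right _ (by omega)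
      rw [he, h7]
      omega

/-- the observed set of the gadget -/
def obsT (m k d J : ℕ) : Finset ℕ :=
  range m ∪ (range (k * J)).image (fun q => blk m k d q + d)

lemma obsT_sub (m k d J : ℕ) : obsT m k d J ⊆ range (blk m k d (k * J)) := by
  intro x hx
  unfold obsT at hx
  rw [Finset.mem_union, Finset.mem_range, Finset.mem_image] at hx
  rw [Finset.mem_range]
  rcases hx with hx | ⟨q, hq, rfl⟩
  · unfold blk; omega
  · rw [Finset.mem_range] at hq
    obtain ⟨e, he⟩ := Nat.exists_eq_add_of_lt hq
    rw [he]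
    have : blk m k d (q + e + 1) = blk m k d q + (e + 1) * (d + 1) := by
      rw [add_assoc, blk_add]
    rw [this]
    have : 1 * (d + 1) ≤ (e + 1) * (d + 1) := Nat.mul_le_mul_right _ (by omega)
    omega

lemma unanimity (hF : Law F) (hk : 0 < k) {a c μ₀ μ₁ δ Λ : ℝ}
    (hZ : ZoneFacts F t r a c μ₀ μ₁ δ Λ) (hpar : Λ ≤ r * (a ^ m * c * μ₀ ^ d))
    (hpar' : r * (a ^ (m + 1) * μ₁ ^ d) * Λ ≤ 1) (J : ℕ)
    (hJ : lp F t r true true ^ m * lp F t r true false ^ k + k * (1 - δ ^ d) ^ J <
      lp F t r false true ^ m * lp F t r false false ^ k) (σ : ℕ → S)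
    (hσ : ∀ j ∈ obsT m k d J, act F t r (gad m k d) j σ = true) :
    LR F t r (gad m k d) (blk m k d (k * J)) (obsT m k d J) σ < 1 := by
  have hWF := gad_WF m k d hk
  have hn : m + k ≤ blk m k d (k * J) := by unfold blk; omega
  have hmemD : ∀ q < k * J, blk m k d q + d ∈ obsT m k d J := fun q hq =>
    Finset.mem_union_right _ (Finset.mem_image.mpr ⟨q, Finset.mem_range.mpr hq, rfl⟩)
  have hmemB : ∀ l < m, l ∈ obsT m k d J := fun l hl =>
    Finset.mem_union_left _ (Finset.mem_range.mpr hl)
  have hpr : ∀ b, pr F t r (gad m k d) b (blk m k d (k * J)) (obsT m k d J) σ =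
      Ex (F b) (blk m k d (k * J)) (fun ω => ind (∀ j ∈ obsT m k d J,
        act F t r (gad m k d) j ω = true)) := by
    intro b
    unfold pr Same
    refine Ex_congr fun ω => ind_congr (forall₂_congr fun j hj => ?_)
    rw [hσ j hj]
  -- the pattern all B positive, all A negative
  have hE : ∀ b, Ex (F b) (blk m k d (k * J)) (fun ω => ind (∀ j ∈ range (m + k),
      if j < m then lev F t r (ω j) = true else lev F t r (ω j) = false)) =
      lp F t r b true ^ m * lp F t r b false ^ k := by
    intro b
    rw [Ex_product (hF.sum b) (range (m + k)) (Finset.range_subset_range.mpr hn)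
      (fun j s => if j < m then lev F t r s = true else lev F t r s = false)]
    rw [Finset.prod_range_add]
    congr 1
    · rw [Finset.prod_congr rfl (g := fun _ => lp F t r b true)]
      · simp
      · intro j hj
        simp [lp, Finset.mem_range.mp hj]
    · rw [Finset.prod_congr rfl (g := fun _ => lp F t r b false)]
      · simp
      · intro j hj
        simp [lp]
  have hlow : lp F t r false true ^ m * lp F t r false false ^ k ≤
      pr F t r (gad m k d) false (blk m k d (k * J)) (obsT m k d J) σ := by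
    rw [hpr, ← hE false]
    refine Ex_mono (fun s => (hF.pos false s).le) fun ω => ind_mono fun h j hj => ?_
    have hB : ∀ l < m, act F t r (gad m k d) l ω = true := by
      intro l hl
      rw [act_AB hF hk (by omega)]
      have := h l (Finset.mem_range.mpr (by omega))
      simpa [hl] using this
    unfold obsT at hj
    rw [Finset.mem_union, Finset.mem_range, Finset.mem_image] at hj
    rcases hj with hj | ⟨q, _, rfl⟩
    · exact hB j hj
    · refine act_D_true hF hk hZ hpar q ω hB ?_
      have hq := Nat.mod_lt q hk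
      rw [act_AB hF hk (by omega)]
      have := h (m + q % k) (Finset.mem_range.mpr (by omega))
      simpa using this
  have hup : pr F t r (gad m k d) true (blk m k d (k * J)) (obsT m k d J) σ ≤
      lp F t r true true ^ m * lp F t r true false ^ k + k * (1 - δ ^ d) ^ J := by
    rw [hpr, ← hE true]
    have hsum : ∑ i ∈ range k, Ex (F true) (blk m k d (k * J)) (fun ω => ind (∀ j < J,
        ¬ ∀ l < d, lev F t (rat F t r true) (ω (blk m k d (k * j + i) + l)) = false)) =
        k * (1 - δ ^ d) ^ J := by
      rw [Finset.sum_congr rfl fun i hi => no_bad hF (rat F t r true) hk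
        (Finset.mem_range.mp hi) true J, hZ.r1]
      simp
    rw [← hsum, ← Ex_sum_fun, ← Ex_add_fun]
    refine Ex_mono (fun s => (hF.pos true s).le) fun ω => ?_
    by_cases hall : ∀ j ∈ obsT m k d J, act F t r (gad m k d) j ω = true
    swap
    · rw [ind_false hall]
      exact add_nonneg (ind_nonneg _) (Finset.sum_nonneg fun i _ => ind_nonneg _)
    rw [ind_true hall]
    have hB : ∀ l < m, act F t r (gad m k d) l ω = true := fun l hl => hall l (hmemB l hl)
    by_cases hA : ∀ i < k, act F t r (gad m k d) (m + i) ω = false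
    · rw [ind_true (P := ∀ j ∈ range (m + k),
        if j < m then lev F t r (ω j) = true else lev F t r (ω j) = false)]
      · have : 0 ≤ ∑ i ∈ range k, ind (∀ j < J,
            ¬ ∀ l < d, lev F t (rat F t r true) (ω (blk m k d (k * j + i) + l)) = false) :=
          Finset.sum_nonneg fun i _ => ind_nonneg _
        linarith
      · intro j hj
        have hj' := Finset.mem_range.mp hj
        split_ifs with h
        · rw [← act_AB (t := t) (r := r) (d := d) hF hk hj' ω]
          exact hB j h
        · have h1 := hA (j - m) (by omega)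
          have h2 : m + (j - m) = j := by omega
          rw [h2] at h1
          rw [← act_AB (t := t) (r := r) (d := d) hF hk hj' ω]
          exact h1
    · push Not at hA
      obtain ⟨i, hi, hAi⟩ := hA
      have hAi' : act F t r (gad m k d) (m + i) ω = true := by simpa using hAi
      have h1 : ind (∀ j < J,
          ¬ ∀ l < d, lev F t (rat F t r true) (ω (blk m k d (k * j + i) + l)) = false) = 1 := by
        apply ind_true
        intro j hj hbad
        have hq : (k * j + i) % k = i := by
          rw [Nat.mul_add_mod, Nat.mod_eq_of_lt hi]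
        have hqlt : k * j + i < k * J := by
          have : k * (j + 1) ≤ k * J := Nat.mul_le_mul_left _ hj
          have h6 : k * (j + 1) = k * j + k := by ring
          omega
        have h2 := act_D_false hF hk hZ hpar' (k * j + i) ω hB (by rw [hq]; exact hAi')
          (by
            intro l hl
            rw [act_C hF hk _ l hl, hq, hAi']
            exact hbad l hl)
        rw [hall _ (hmemD _ hqlt)] at h2
        exact Bool.noConfusion h2
      have h2 := Finset.single_le_sum (f := fun i => ind (∀ j < J,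
          ¬ ∀ l < d, lev F t (rat F t r true) (ω (blk m k d (k * j + i) + l)) = false))
          (fun i _ => ind_nonneg _) (Finset.mem_range.mpr hi)
      rw [h1] at h2
      have h3 := ind_nonneg (∀ j ∈ range (m + k),
        if j < m then lev F t r (ω j) = true else lev F t r (ω j) = false)
      linarith
  unfold LR
  rw [div_lt_one (pr_pos hF hWF (obsT_sub m k d J) _ _)]
  linarith

/-- **Gadget**: every outcome has an observed set with likelihood ratio below one. -/
theorem gadget_neg (hF : Law F) (hZ : Zone F t r) :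
    ∃ (G : ℕ → Finset ℕ) (g : ℕ), WF G ∧ 0 < g ∧ ∀ σ : ℕ → S, ∃ U ⊆ range g,
      LR F t r G g U σ < 1 := by
  obtain ⟨a, c, μ₀, μ₁, δ, Λ, hZF⟩ := zoneFacts hF hZ
  obtain ⟨m, d, hpar, hpar'⟩ := exists_md hZF
  have ha := hZF.ha
  have hc0 := hZF.hc0
  have hpf := hZF.pf
  have hqf := hZF.qf
  obtain ⟨k', hk'⟩ := exists_pow_lt_of_lt_one (show 0 < 1 / a ^ m by positivity) hZF.hc1
  set k := k' + 1 with hkdef
  have hk : 0 < k := by omega
  have hck : a ^ m * c ^ k < 1 := by
    have h1 : c ^ k ≤ c ^ k' := pow_le_pow_of_le_one hc0.le hZF.hc1.le (by omega)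
    have h2 : c ^ k < 1 / a ^ m := h1.trans_lt hk'
    rw [lt_div_iff₀ (by positivity)] at h2
    linarith
  have hgap : 0 < lp F t r false true ^ m * lp F t r false false ^ k -
      lp F t r true true ^ m * lp F t r true false ^ k := by
    rw [hZF.pa, hZF.qc, mul_pow, mul_pow]
    have h3 : 0 < lp F t r false true ^ m * lp F t r false false ^ k := by positivity
    nlinarith
  have hδ1 : 1 - δ ^ d < 1 := by
    have := pow_pos hZF.hδ0 d
    linarith
  have hδ0 : 0 ≤ 1 - δ ^ d := by
    have := pow_le_one₀ hZF.hδ0.le hZF.hδ1 (n := d)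
    linarith
  obtain ⟨J, hJ⟩ := exists_pow_lt_of_lt_one (show 0 < (lp F t r false true ^ m *
    lp F t r false false ^ k - lp F t r true true ^ m * lp F t r true false ^ k) / k by
      have : (0 : ℝ) < k := by exact_mod_cast hk
      positivity) hδ1
  have hJ' : lp F t r true true ^ m * lp F t r true false ^ k + k * (1 - δ ^ d) ^ J <
      lp F t r false true ^ m * lp F t r false false ^ k := by
    have hk0 : (0 : ℝ) < k := by exact_mod_cast hk
    rw [lt_div_iff₀ hk0] at hJ
    linarith
  have hWF := gad_WF m k d hk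
  refine ⟨gad m k d, blk m k d (k * J), hWF, by unfold blk; omega, fun σ => ?_⟩
  by_cases hall : ∀ j ∈ obsT m k d J, act F t r (gad m k d) j σ = true
  · exact ⟨obsT m k d J, obsT_sub m k d J, unanimity hF hk hZF hpar hpar' J hJ' σ hall⟩
  · push Not at hall
    obtain ⟨j, hj, hja⟩ := hall
    have hlt : j < blk m k d (k * J) := Finset.mem_range.mp (obsT_sub m k d J hj)
    obtain ⟨s₁, hs₁⟩ := hZ.up
    obtain ⟨s₀, hs₀⟩ := hZ.dn
    exact ⟨{j}, by simpa using hlt, LR_singleton_lt hF hWF hlt s₁ s₀ hs₁ hs₀ σ (by simpa using hja)⟩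

end Pool.Agent.MP_a79c01_pr
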