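import Pool.Agent.MP_a79c01_pr.Act

/-!
Change of measure, the Bhattacharyya coefficient of an observation, the error of an agent, and
informativeness of a single action.
-/

set_option autoImplicit false

namespace Pool.Agent.MP_a79c01_pr

open Finset

variable {S : Type} [Fintype S] [Inhabited S]
variable {F : Bool → S → ℝ} {t : Bool} {r : ℝ} {N N' G : ℕ → Finset ℕ}

/-- change of measure on observable functions -/
lemma cm (hF : Law F) (hN : WF N) {n : ℕ} {T : Finset ℕ} (hT : T ⊆ range n)
    (g : (ℕ → S) → ℝ) (hg : ∀ ω ω', Same F t r N T ω ω' → g ω = g ω') :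
    Ex (F false) n (fun ω => LR F t r N n T ω * g ω) = Ex (F true) n g := by
  have h1 : ∀ x : Fin n → S, (∏ i, F false (x i)) * (LR F t r N n T (ext n x) * g (ext n x)) =
      ∑ y : Fin n → S, (∏ i, F true (y i)) * ((g (ext n y) / pr F t r N false n T (ext n y)) *
        ((∏ i, F false (x i)) * ind (Same F t r N T (ext n x) (ext n y)))) := by
    intro x
    unfold LR
    rw [pr, Ex]
    rw [Finset.sum_div, Finset.sum_mul, Finset.mul_sum]
    refine Finset.sum_congr rfl fun y _ => ?_
    by_cases h : Same F t r N T (ext n y) (ext n x)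
    · rw [ind_true h, ind_true (same_symm h), hg _ _ h, pr_same h]
      ring
    · rw [ind_false h, ind_false (fun h' => h (same_symm h'))]
      ring
  unfold Ex
  rw [Finset.sum_congr rfl fun x _ => h1 x, Finset.sum_comm]
  refine Finset.sum_congr rfl fun y _ => ?_
  rw [← Finset.mul_sum, ← Finset.mul_sum]
  have h2 : ∑ x : Fin n → S, (∏ i, F false (x i)) * ind (Same F t r N T (ext n x) (ext n y)) =
      pr F t r N false n T (ext n y) := rfl
  rw [h2, div_mul_cancel₀]
  exact (pr_pos hF hN hT _ _).ne'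

/-- Bhattacharyya coefficient of the observation of `T` -/
noncomputable def BC (F : Bool → S → ℝ) (t : Bool) (r : ℝ) (N : ℕ → Finset ℕ) (n : ℕ)
    (T : Finset ℕ) : ℝ := Ex (F false) n (fun ω => Real.sqrt (LR F t r N n T ω))

lemma BC_nonneg (hF : Law F) (n : ℕ) (T : Finset ℕ) : 0 ≤ BC F t r N n T :=
  Ex_nonneg (fun s => (hF.pos false s).le) fun _ => Real.sqrt_nonneg _

lemma BC_mono (hF : Law F) (hN : WF N) {n : ℕ} {T T' : Finset ℕ} (hT : T' ⊆ range n)
    (h : T ⊆ T') : BC F t r N n T' ≤ BC F t r N n T := by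
  have hT0 : T ⊆ range n := h.trans hT
  have hpos := fun ω => LR_pos (t := t) (r := r) hF hN hT0 ω
  have hpos' := fun ω => LR_pos (t := t) (r := r) hF hN hT ω
  have h1 : ∀ ω, Real.sqrt (LR F t r N n T' ω) ≤
      (1 / 2) * (LR F t r N n T' ω * (1 / Real.sqrt (LR F t r N n T ω)) +
        Real.sqrt (LR F t r N n T ω)) := by
    intro ω
    have a := Real.sqrt_pos.mpr (hpos ω)
    have b := Real.sq_sqrt (hpos' ω).le
    set u := Real.sqrt (LR F t r N n T' ω)
    set v := Real.sqrt (LR F t r N n T ω)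
    rw [← b]
    have : (1 / 2) * (u ^ 2 * (1 / v) + v) - u = (u - v) ^ 2 / (2 * v) := by
      field_simp
      ring
    have h3 : 0 ≤ (u - v) ^ 2 / (2 * v) := by positivity
    linarith
  have hinv : ∀ ω ω', Same F t r N T ω ω' → (1 / Real.sqrt (LR F t r N n T ω)) =
      1 / Real.sqrt (LR F t r N n T ω') := fun ω ω' hs => by rw [LR_same hs]
  have h2 := cm (t := t) (r := r) hF hN hT (fun ω => 1 / Real.sqrt (LR F t r N n T ω))
    (fun ω ω' hs => hinv ω ω' (same_mono h hs))
  have h3 := cm (t := t) (r := r) hF hN hT0 (fun ω => 1 / Real.sqrt (LR F t r N n T ω)) hinv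
  have h4 : ∀ ω, LR F t r N n T ω * (1 / Real.sqrt (LR F t r N n T ω)) =
      Real.sqrt (LR F t r N n T ω) := by
    intro ω
    have a := Real.sqrt_pos.mpr (hpos ω)
    have b := Real.mul_self_sqrt (hpos ω).le
    rw [mul_one_div, div_eq_iff a.ne', b]
  rw [Ex_congr h4] at h3
  calc BC F t r N n T' ≤ Ex (F false) n (fun ω =>
        (1 / 2) * (LR F t r N n T' ω * (1 / Real.sqrt (LR F t r N n T ω)) +
        Real.sqrt (LR F t r N n T ω))) := Ex_mono (fun s => (hF.pos false s).le) h1
    _ = (1 / 2) * (Ex (F true) n (fun ω => 1 / Real.sqrt (LR F t r N n T ω)) +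
        Ex (F false) n (fun ω => Real.sqrt (LR F t r N n T ω))) := by
        rw [Ex_mul_left, Ex_add_fun, h2]
    _ = BC F t r N n T := by rw [← h3]; unfold BC; ring

lemma BC_local (hF : Law F) (hN : WF N) {n m : ℕ} (h : n ≤ m) {T : Finset ℕ} (hT : T ⊆ range n) :
    BC F t r N m T = BC F t r N n T := by
  unfold BC
  rw [Ex_congr fun ω => by rw [LR_local hF hN h hT ω]]
  refine Ex_local' (hF.sum false) h ?_
  intro ω ω' hω
  simp only
  rw [LR_depOn hN hT n ω ω' hω]

lemma BC_congr_net (hN : WF N) (hN' : WF N') {n : ℕ} (h : ∀ i < n, N i = N' i) {T : Finset ℕ}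
    (hT : T ⊆ range n) (k : ℕ) : BC F t r N k T = BC F t r N' k T := by
  unfold BC
  exact Ex_congr fun ω => by rw [LR_congr_net hN hN' h hT]

lemma BC_empty (hF : Law F) (n : ℕ) : BC F t r N n ∅ = 1 := by
  unfold BC
  rw [Ex_congr (g := fun _ => 1) fun ω => by rw [LR, pr_empty hF, pr_empty hF]; simp]
  exact Ex_const _ (hF.sum false) n 1

lemma BC_le_one (hF : Law F) (hN : WF N) {n : ℕ} {T : Finset ℕ} (hT : T ⊆ range n) :
    BC F t r N n T ≤ 1 := by
  rw [← BC_empty (F := F) (t := t) (r := r) (N := N) hF n]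
  exact BC_mono hF hN hT (Finset.empty_subset _)

lemma Ex_succ {p : S → ℝ} {i : ℕ} {f : (ℕ → S) → ℝ} (hf : DepOn (i + 1) f) :
    Ex p (i + 1) f = Ex p i (fun ω => ∑ s, p s * f (glue i ω fun _ => s)) := by
  rw [Ex_add]
  refine Ex_congr fun ω => ?_
  unfold Ex
  rw [← (Equiv.funUnique (Fin 1) S).sum_comp (fun s => p s * f (glue i ω fun _ => s))]
  refine Finset.sum_congr rfl fun x _ => ?_
  have h0 : (Equiv.funUnique (Fin 1) S) x = x 0 := rfl
  rw [h0]
  simp only [Finset.univ_unique, Fin.default_eq_zero, Finset.prod_singleton]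
  congr 1
  refine hf _ _ fun j hj => ?_
  unfold glue ext
  split_ifs with h1 h2
  · rfl
  · congr 1
    ext; simp; omega
  · omega

/-- the decision of agent `i` given the past `ω` and her signal `s` -/
noncomputable def dcs (F : Bool → S → ℝ) (t : Bool) (r : ℝ) (N : ℕ → Finset ℕ) (i : ℕ)
    (ω : ℕ → S) (s : S) : Bool :=
  dec t (r * pr F t r N true i (N i) ω * F true s) (pr F t r N false i (N i) ω * F false s)

lemma act_glue (hN : WF N) (i : ℕ) (ω : ℕ → S) (s : S) :
    act F t r N i (glue i ω fun _ => s) = dcs F t r N i ω s := by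
  rw [act_eq hN]
  unfold dcs
  have h1 : ∀ b, pr F t r N b i (N i) (glue i ω fun _ => s) = pr F t r N b i (N i) ω :=
    fun b => pr_depOn hN (hN i) b i _ _ fun j hj => glue_lt i ω _ j hj
  have h2 : glue i ω (fun _ => s) i = s := by simp [glue]
  rw [h1, h1, h2]

lemma prob_act (hN : WF N) (p : S → ℝ) (i : ℕ) (v : Bool) :
    Ex p (i + 1) (fun ω => ind (act F t r N i ω = v)) =
      Ex p i (fun ω => ∑ s, p s * ind (dcs F t r N i ω s = v)) := by
  rw [Ex_succ]
  · refine Ex_congr fun ω => ?_
    refine Finset.sum_congr rfl fun s _ => ?_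
    rw [act_glue hN]
  · intro ω ω' h
    exact congrArg ind (by rw [act_depOn hN (Nat.lt_succ_self i) ω ω' h])

lemma dcs_same {i : ℕ} {ω ω' : ℕ → S} (h : Same F t r N (N i) ω ω') (s : S) :
    dcs F t r N i ω s = dcs F t r N i ω' s := by
  unfold dcs
  rw [pr_same h, pr_same h]

lemma prob_act_true (hF : Law F) (hN : WF N) (i : ℕ) (v : Bool) :
    Ex (F true) (i + 1) (fun ω => ind (act F t r N i ω = v)) =
      Ex (F false) i (fun ω => LR F t r N i (N i) ω *
        ∑ s, F true s * ind (dcs F t r N i ω s = v)) := by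
  rw [prob_act hN, cm hF hN (hN i)]
  intro ω ω' h
  exact Finset.sum_congr rfl fun s _ => by rw [dcs_same h]

lemma dcs_true (hF : Law F) (hN : WF N) {i : ℕ} {ω : ℕ → S} {s : S}
    (h : dcs F t r N i ω s = true) : F false s ≤ r * LR F t r N i (N i) ω * F true s := by
  have h1 := le_of_dec_true h
  have h2 := pr_pos (t := t) (r := r) hF hN (hN i) false ω
  unfold LR
  rw [mul_div_assoc', div_mul_eq_mul_div, le_div_iff₀ h2]
  linarith

lemma dcs_false (hF : Law F) (hN : WF N) {i : ℕ} {ω : ℕ → S} {s : S}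
    (h : dcs F t r N i ω s = false) : r * LR F t r N i (N i) ω * F true s ≤ F false s := by
  have h1 := le_of_dec_false h
  have h2 := pr_pos (t := t) (r := r) hF hN (hN i) false ω
  unfold LR
  rw [mul_div_assoc', div_mul_eq_mul_div, div_le_iff₀ h2]
  linarith

lemma dcs_eq_true (hF : Law F) (hN : WF N) {i : ℕ} {ω : ℕ → S} {s : S}
    (h : F false s < r * LR F t r N i (N i) ω * F true s) : dcs F t r N i ω s = true := by
  by_contra hc
  have := dcs_false hF hN (Bool.eq_false_iff.mpr hc)
  linarith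

lemma dcs_eq_false (hF : Law F) (hN : WF N) {i : ℕ} {ω : ℕ → S} {s : S}
    (h : r * LR F t r N i (N i) ω * F true s < F false s) : dcs F t r N i ω s = false := by
  by_contra hc
  have := dcs_true hF hN (by simpa using hc)
  linarith

/-- the error of an agent is at most the Bhattacharyya coefficient of what she observes -/
lemma err_le_BC (hF : Law F) (hN : WF N) (i : ℕ) :
    Ex (F true) (i + 1) (fun ω => ind (act F t 1 N i ω = false)) +
      Ex (F false) (i + 1) (fun ω => ind (act F t 1 N i ω = true)) ≤ BC F t 1 N i (N i) := by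
  rw [prob_act_true hF hN, prob_act hN, ← Ex_add_fun]
  unfold BC
  refine Ex_mono (fun s => (hF.pos false s).le) fun ω => ?_
  have hL := LR_pos (t := t) (r := 1) hF hN (hN i) ω
  set L := LR F t 1 N i (N i) ω with hLdef
  have hs : ∀ s, L * (F true s * ind (dcs F t 1 N i ω s = false)) +
      F false s * ind (dcs F t 1 N i ω s = true) ≤ min (L * F true s) (F false s) := by
    intro s
    cases hd : dcs F t 1 N i ω s
    · have h1 := dcs_false hF hN hd
      rw [one_mul, ← hLdef] at h1
      rw [ind_true rfl, ind_false (by simp), mul_one, mul_zero, add_zero]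
      exact le_min le_rfl h1
    · have h1 := dcs_true hF hN hd
      rw [one_mul, ← hLdef] at h1
      rw [ind_true rfl, ind_false (by simp), mul_one, mul_zero, mul_zero, zero_add]
      exact le_min h1 le_rfl
  have h1 : L * (∑ s, F true s * ind (dcs F t 1 N i ω s = false)) +
      ∑ s, F false s * ind (dcs F t 1 N i ω s = true) ≤ min L 1 := by
    rw [Finset.mul_sum, ← Finset.sum_add_distrib]
    refine (Finset.sum_le_sum fun s _ => hs s).trans (le_min ?_ ?_)
    · refine (Finset.sum_le_sum fun s _ => min_le_left _ _).trans ?_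
      rw [← Finset.mul_sum, hF.sum true, mul_one]
    · refine (Finset.sum_le_sum fun s _ => min_le_right _ _).trans ?_
      rw [hF.sum false]
  refine h1.trans ?_
  rcases le_total L 1 with h | h
  · rw [min_eq_left h]
    exact Real.le_sqrt_of_sq_le (by nlinarith)
  · rw [min_eq_right h]
    exact Real.one_le_sqrt.mpr h

lemma LR_expect (hF : Law F) (hN : WF N) {n : ℕ} {T : Finset ℕ} (hT : T ⊆ range n) :
    Ex (F false) n (fun ω => LR F t r N n T ω) = 1 := by
  have := cm (t := t) (r := r) hF hN hT (fun _ => 1) (fun _ _ _ => rfl)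
  simp only [mul_one] at this
  rw [this, Ex_const _ (hF.sum true)]

lemma exists_one_le_LR (hF : Law F) (hN : WF N) {n : ℕ} {T : Finset ℕ} (hT : T ⊆ range n) :
    ∃ ω, 1 ≤ LR F t r N n T ω := by
  by_contra hc
  push Not at hc
  have h := Ex_lt (p := F false) (hF.pos false) (n := n) (f := fun ω => LR F t r N n T ω)
    (g := fun _ => 1) (fun ω => (hc ω).le) (LR_depOn hN hT n) (fun _ _ _ => rfl)
    (fun _ => default) (hc _)
  rw [LR_expect hF hN hT, Ex_const _ (hF.sum false)] at h
  exact lt_irrefl _ h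

lemma exists_LR_le_one (hF : Law F) (hN : WF N) {n : ℕ} {T : Finset ℕ} (hT : T ⊆ range n) :
    ∃ ω, LR F t r N n T ω ≤ 1 := by
  by_contra hc
  push Not at hc
  have h := Ex_lt (p := F false) (hF.pos false) (n := n) (f := fun _ => 1)
    (g := fun ω => LR F t r N n T ω) (fun ω => (hc ω).le) (fun _ _ _ => rfl) (LR_depOn hN hT n)
    (fun _ => default) (hc _)
  rw [LR_expect hF hN hT, Ex_const _ (hF.sum false)] at h
  exact lt_irrefl _ h

lemma dcs_depOn (hN : WF N) (i : ℕ) (v : Bool) (c d : S → ℝ) :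
    DepOn i (fun ω => ∑ s, (LR F t r N i (N i) ω * c s + d s) *
      ind (dcs F t r N i ω s = v)) := by
  intro ω ω' h
  have hs : Same F t r N (N i) ω ω' := fun m hm =>
    act_depOn hN (Finset.mem_range.mp (hN i hm)) ω ω' h
  simp only
  refine Finset.sum_congr rfl fun s _ => ?_
  rw [dcs_same hs, LR_same hs]

lemma info_true (hF : Law F) (hN : WF N) (i : ℕ)
    (s₁ : S) (h₁ : F false s₁ < r * F true s₁) :
    Ex (F false) (i + 1) (fun ω => ind (act F t r N i ω = true)) <
      r * Ex (F true) (i + 1) (fun ω => ind (act F t r N i ω = true)) := by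
  rw [prob_act_true hF hN, prob_act hN, ← Ex_mul_left, ← sub_pos, ← Ex_sub_fun]
  have hr : 0 < r := by
    have := hF.pos false s₁
    have h2 := hF.pos true s₁
    by_contra hc
    nlinarith
  have e : ∀ ω, r * (LR F t r N i (N i) ω * ∑ s, F true s * ind (dcs F t r N i ω s = true)) -
      ∑ s, F false s * ind (dcs F t r N i ω s = true) =
      ∑ s, (LR F t r N i (N i) ω * (r * F true s) + (- F false s)) *
        ind (dcs F t r N i ω s = true) := by
    intro ω
    rw [Finset.mul_sum, Finset.mul_sum, ← Finset.sum_sub_distrib]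
    exact Finset.sum_congr rfl fun s _ => by ring
  rw [Ex_congr e]
  have hnn : ∀ ω s, 0 ≤ (LR F t r N i (N i) ω * (r * F true s) + (- F false s)) *
        ind (dcs F t r N i ω s = true) := by
    intro ω s
    by_cases hd : dcs F t r N i ω s = true
    · have := dcs_true hF hN hd
      rw [ind_true hd, mul_one]
      linarith
    · rw [ind_false hd, mul_zero]
  obtain ⟨ω, hω⟩ := exists_one_le_LR (t := t) (r := r) hF hN (hN i)
  have hlt : F false s₁ < r * LR F t r N i (N i) ω * F true s₁ := by
    have := mul_le_mul_of_nonneg_left hω (mul_pos hr (hF.pos true s₁)).le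
    linarith
  refine Ex_pos (hF.pos false) (fun ω => Finset.sum_nonneg fun s _ => hnn ω s)
    (dcs_depOn hN i true _ _) ω ?_
  refine Finset.sum_pos' (fun s _ => hnn ω s) ⟨s₁, Finset.mem_univ _, ?_⟩
  rw [ind_true (dcs_eq_true hF hN hlt), mul_one]
  linarith

lemma info_false (hF : Law F) (hN : WF N) (hr : 0 < r) (i : ℕ)
    (s₀ : S) (h₀ : r * F true s₀ < F false s₀) :
    r * Ex (F true) (i + 1) (fun ω => ind (act F t r N i ω = false)) <
      Ex (F false) (i + 1) (fun ω => ind (act F t r N i ω = false)) := by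
  rw [prob_act_true hF hN, prob_act hN, ← Ex_mul_left, ← sub_pos, ← Ex_sub_fun]
  have e : ∀ ω, ∑ s, F false s * ind (dcs F t r N i ω s = false) -
      r * (LR F t r N i (N i) ω * ∑ s, F true s * ind (dcs F t r N i ω s = false)) =
      ∑ s, (LR F t r N i (N i) ω * (- (r * F true s)) + F false s) *
        ind (dcs F t r N i ω s = false) := by
    intro ω
    rw [Finset.mul_sum, Finset.mul_sum, ← Finset.sum_sub_distrib]
    exact Finset.sum_congr rfl fun s _ => by ring
  rw [Ex_congr e]
  have hnn : ∀ ω s, 0 ≤ (LR F t r N i (N i) ω * (- (r * F true s)) + F false s) *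
        ind (dcs F t r N i ω s = false) := by
    intro ω s
    by_cases hd : dcs F t r N i ω s = false
    · have := dcs_false hF hN hd
      rw [ind_true hd, mul_one]
      linarith
    · rw [ind_false hd, mul_zero]
  obtain ⟨ω, hω⟩ := exists_LR_le_one (t := t) (r := r) hF hN (hN i)
  have hlt : r * LR F t r N i (N i) ω * F true s₀ < F false s₀ := by
    have := mul_le_mul_of_nonneg_left hω (mul_pos hr (hF.pos true s₀)).le
    linarith
  refine Ex_pos (hF.pos false) (fun ω => Finset.sum_nonneg fun s _ => hnn ω s)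
    (dcs_depOn hN i false _ _) ω ?_
  refine Finset.sum_pos' (fun s _ => hnn ω s) ⟨s₀, Finset.mem_univ _, ?_⟩
  rw [ind_true (dcs_eq_false hF hN hlt), mul_one]
  linarith

lemma prob_act_add (hF : Law F) (b : Bool) (i : ℕ) :
    Ex (F b) (i + 1) (fun ω => ind (act F t r N i ω = false)) +
      Ex (F b) (i + 1) (fun ω => ind (act F t r N i ω = true)) = 1 := by
  rw [← Ex_add_fun, ← Ex_const (F b) (hF.sum b) (i + 1) 1]
  refine Ex_congr fun ω => ?_
  cases act F t r N i ω
  · rw [ind_true rfl, ind_false (by simp)]; norm_num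
  · rw [ind_true rfl, ind_false (by simp)]; norm_num

/-- each action is informative -/
lemma info (hF : Law F) (hN : WF N) (i : ℕ) (s₁ s₀ : S) (h₁ : F false s₁ < r * F true s₁)
    (h₀ : r * F true s₀ < F false s₀) :
    Ex (F true) (i + 1) (fun ω => ind (act F t r N i ω = false)) <
      Ex (F false) (i + 1) (fun ω => ind (act F t r N i ω = false)) := by
  have hr : 0 < r := by
    have := hF.pos false s₁
    have h2 := hF.pos true s₁
    by_contra hc
    nlinarith
  rcases le_total r 1 with h | h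
  · have a := info_true (t := t) hF hN i s₁ h₁
    have b1 := prob_act_add (t := t) (r := r) (N := N) hF true i
    have b0 := prob_act_add (t := t) (r := r) (N := N) hF false i
    have c : 0 ≤ Ex (F true) (i + 1) (fun ω => ind (act F t r N i ω = true)) :=
      Ex_nonneg (fun s => (hF.pos true s).le) fun _ => ind_nonneg _
    nlinarith
  · have a := info_false (t := t) hF hN hr i s₀ h₀
    have c : 0 ≤ Ex (F true) (i + 1) (fun ω => ind (act F t r N i ω = false)) :=
      Ex_nonneg (fun s => (hF.pos true s).le) fun _ => ind_nonneg _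
    nlinarith

lemma pr_singleton (hF : Law F) (hN : WF N) {n i : ℕ} (h : i < n) (b : Bool) (ω : ℕ → S) :
    pr F t r N b n {i} ω = Ex (F b) (i + 1) (fun ω' => ind (act F t r N i ω' =
      act F t r N i ω)) := by
  rw [pr_local hF hN (n := i + 1) (by omega) (by simp)]
  unfold pr Same
  exact Ex_congr fun ω' => ind_congr (by simp)

lemma LR_singleton_lt (hF : Law F) (hN : WF N) {n i : ℕ} (h : i < n) (s₁ s₀ : S)
    (h₁ : F false s₁ < r * F true s₁) (h₀ : r * F true s₀ < F false s₀) (ω : ℕ → S)
    (ha : act F t r N i ω = false) : LR F t r N n {i} ω < 1 := by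
  have hT : {i} ⊆ range n := by simpa using h
  unfold LR
  rw [div_lt_one (pr_pos hF hN hT _ _), pr_singleton hF hN h, pr_singleton hF hN h, ha]
  exact info hF hN i s₁ s₀ h₁ h₀

/-- exchange of the two states -/
def flipF (F : Bool → S → ℝ) : Bool → S → ℝ := fun b => F (!b)

lemma flipF_law (hF : Law F) : Law (flipF F) := ⟨fun b s => hF.pos _ s, fun b => hF.sum _⟩

lemma act_flip (hN : WF N) (hr : 0 < r) : ∀ (n : ℕ) (ω : ℕ → S),
    act (flipF F) (!t) r⁻¹ N n ω = !(act F t r N n ω) := by
  intro n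
  induction n using Nat.strong_induction_on with
  | _ n ih =>
    intro ω
    rw [act_eq hN, act_eq hN]
    have h1 : ∀ b, pr (flipF F) (!t) r⁻¹ N b n (N n) ω = pr F t r N (!b) n (N n) ω := by
      intro b
      unfold pr
      refine Ex_congr fun σ => ind_congr ?_
      unfold Same
      refine forall₂_congr fun m hm => ?_
      have hmn := Finset.mem_range.mp (hN n hm)
      rw [ih m hmn, ih m hmn]
      simp
    rw [h1, h1, ← dec_mul (t := !t) hr, dec_not]
    unfold flipF
    simp only [Bool.not_true, Bool.not_false]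
    congr 2
    · ring
    · field_simp

lemma same_flip (hN : WF N) (hr : 0 < r) (T : Finset ℕ) (ω' ω : ℕ → S) :
    Same (flipF F) (!t) r⁻¹ N T ω' ω ↔ Same F t r N T ω' ω := by
  unfold Same
  refine forall₂_congr fun m _ => ?_
  rw [act_flip hN hr, act_flip hN hr]
  simp

lemma pr_flip (hN : WF N) (hr : 0 < r) (b : Bool) (n : ℕ) (T : Finset ℕ) (ω : ℕ → S) :
    pr (flipF F) (!t) r⁻¹ N b n T ω = pr F t r N (!b) n T ω := by
  unfold pr
  exact Ex_congr fun σ => ind_congr (same_flip hN hr T σ ω)

lemma LR_flip (hN : WF N) (hr : 0 < r) (n : ℕ) (T : Finset ℕ) (ω : ℕ → S) :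
    LR (flipF F) (!t) r⁻¹ N n T ω = (LR F t r N n T ω)⁻¹ := by
  unfold LR
  rw [pr_flip hN hr, pr_flip hN hr]
  simp

end Pool.Agent.MP_a79c01_pr
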