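import Pool.Agent.MP_a79c01_pr.Stage

/-!
The infinite network.
-/

set_option autoImplicit false

namespace Pool.Agent.MP_a79c01_pr

open Finset Filter Topology

variable {S : Type} [Fintype S] [Inhabited S]
variable {F : Bool → S → ℝ} {t : Bool}

lemma good_start {zl zh κ ρ : ℝ} (hS : Setup F t zl zh κ ρ) :
    Good F t zl zh ρ (ρ ^ 0) nul 0 := by
  refine ⟨nul_WF, ?_, fun ω => ⟨∅, Finset.empty_subset _, ?_, ?_, ?_⟩⟩
  · rw [pow_zero]
    exact BC_le_one hS.law nul_WF (Finset.Subset.refl _)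
  · rw [LR, pr_empty hS.law, pr_empty hS.law, div_one]
    exact hS.hzl1
  · rw [LR, pr_empty hS.law, pr_empty hS.law, div_one]
    exact hS.hzh1
  · rw [BC_empty hS.law, one_mul, pow_zero]
    exact hS.hρ1.le

theorem limit {zl zh κ ρ : ℝ} (hS : Setup F t zl zh κ ρ) :
    ∃ N : ℕ → Finset ℕ, WF N ∧
      Tendsto (fun i => BC F t 1 N i (N i)) atTop (𝓝 0) := by
  have step : ∀ (k : ℕ) (p : (ℕ → Finset ℕ) × ℕ), Good F t zl zh ρ (ρ ^ k) p.1 p.2 →
      ∃ p' : (ℕ → Finset ℕ) × ℕ, Good F t zl zh ρ (ρ ^ (k + 1)) p'.1 p'.2 ∧ p.2 < p'.2 ∧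
        (∀ i < p.2, p'.1 i = p.1 i) ∧
        ∀ i, p.2 ≤ i → i < p'.2 → ∃ B ⊆ range p.2, B ⊆ p'.1 i ∧
          BC F t 1 p.1 p.2 B * ρ ≤ ρ ^ k := by
    intro k p hp
    obtain ⟨N', n', h1, h2, h3, h4⟩ := stage hS hp
    refine ⟨(N', n'), ?_, h2, h3, h4⟩
    rw [pow_succ, mul_comm]
    exact h1
  choose! f hf using step
  let seq : ℕ → (ℕ → Finset ℕ) × ℕ := fun k => Nat.rec (nul, 0) (fun k p => f k p) k
  have seq_succ : ∀ k, seq (k + 1) = f k (seq k) := fun _ => rfl
  have hgood : ∀ k, Good F t zl zh ρ (ρ ^ k) (seq k).1 (seq k).2 := by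
    intro k
    induction k with
    | zero => exact good_start hS
    | succ k ih => rw [seq_succ]; exact (hf k _ ih).1
  have hlt : ∀ k, (seq k).2 < (seq (k + 1)).2 := by
    intro k
    rw [seq_succ]
    exact (hf k _ (hgood k)).2.1
  have hmono : StrictMono fun k => (seq k).2 := strictMono_nat_of_lt_succ hlt
  have hge : ∀ k, k ≤ (seq k).2 := hmono.id_le
  have hagree : ∀ k j, k ≤ j → ∀ i < (seq k).2, (seq j).1 i = (seq k).1 i := by
    intro k j hkj
    induction j, hkj using Nat.le_induction with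
    | base => intro i _; rfl
    | succ j hkj ih =>
      intro i hi
      rw [seq_succ, (hf j _ (hgood j)).2.2.1 i (lt_of_lt_of_le hi (hmono.monotone hkj))]
      exact ih i hi
  set N : ℕ → Finset ℕ := fun i => (seq (i + 1)).1 i with hN
  have hNk : ∀ k i, i < (seq k).2 → N i = (seq k).1 i := by
    intro k i hi
    rw [hN]
    simp only
    rcases le_total k (i + 1) with h | h
    · exact hagree k (i + 1) h i hi
    · exact (hagree (i + 1) k h i (lt_of_lt_of_le (Nat.lt_succ_self i) (hge _))).symm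
  have hWF : WF N := fun i => (hgood (i + 1)).1 i
  have hbound : ∀ k i, (seq k).2 ≤ i → BC F t 1 N i (N i) * ρ ≤ ρ ^ k := by
    intro k i hi
    classical
    have hex : ∃ j, i < (seq (j + 1)).2 := ⟨i, lt_of_lt_of_le (Nat.lt_succ_self i) (hge _)⟩
    set j := Nat.find hex with hj
    have hj1 : i < (seq (j + 1)).2 := Nat.find_spec hex
    have hj2 : (seq j).2 ≤ i := by
      rcases Nat.eq_zero_or_pos j with h0 | h0
      · rw [h0]; exact Nat.zero_le _
      · obtain ⟨j', hj'⟩ := Nat.exists_eq_succ_of_ne_zero h0.ne'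
        have := Nat.find_min hex (show j' < Nat.find hex by omega)
        push Not at this
        rw [hj']
        exact this
    have hkj : k ≤ j := by
      by_contra hc
      push Not at hc
      have := hmono.monotone (Nat.succ_le_of_lt hc)
      simp only [Nat.succ_eq_add_one] at this
      omega
    obtain ⟨B, hB, hB1, hB2⟩ := (hf j _ (hgood j)).2.2.2 i hj2 (by rw [← seq_succ]; exact hj1)
    have h3 : N i = (f j (seq j)).1 i := by
      rw [hNk (j + 1) i hj1, seq_succ]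
    have h3' : B ⊆ N i := by rw [h3]; exact hB1
    have h4 : BC F t 1 N i (N i) ≤ BC F t 1 (seq j).1 (seq j).2 B := by
      refine (BC_mono (T := B) hS.law hWF (hWF i) h3').trans ?_
      rw [BC_local hS.law hWF hj2 hB,
        BC_congr_net hWF (hgood j).1 (fun i hi => hNk j i hi) hB]
    calc BC F t 1 N i (N i) * ρ ≤ BC F t 1 (seq j).1 (seq j).2 B * ρ :=
          mul_le_mul_of_nonneg_right h4 hS.hρ0.le
      _ ≤ ρ ^ j := hB2
      _ ≤ ρ ^ k := pow_le_pow_of_le_one hS.hρ0.le hS.hρ1.le hkj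
  refine ⟨N, hWF, ?_⟩
  rw [Metric.tendsto_atTop]
  intro ε hε
  obtain ⟨k, hk⟩ := exists_pow_lt_of_lt_one (show 0 < ε * ρ from mul_pos hε hS.hρ0) hS.hρ1
  refine ⟨(seq k).2, fun i hi => ?_⟩
  rw [Real.dist_eq, sub_zero, abs_of_nonneg (BC_nonneg hS.law _ _)]
  have := hbound k i hi
  have h5 : BC F t 1 N i (N i) * ρ < ε * ρ := this.trans_lt hk
  exact lt_of_mul_lt_mul_right h5 hS.hρ0.le

end Pool.Agent.MP_a79c01_pr
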