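import Pool.Agent.MP_a79c01_pr.Limit

/-!
A four-valued signal distribution satisfying the standing assumptions.
-/

set_option autoImplicit false

namespace Pool.Agent.MP_a79c01_pr

open Finset

variable {S : Type} [Fintype S]

/-- the signal laws are close to `(1/8, 9/16, 9/32, 1/32)` and its reverse -/
structure Near (F : Bool → S → ℝ) (p2 p1 m1 m2 : S) : Prop where
  hsum : ∀ f : S → ℝ, ∑ s, f s = f p2 + f p1 + f m1 + f m2
  t1 : 0.1249 < F true p2
  t1' : F true p2 < 0.1251
  t2 : 0.5624 < F true p1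
  t2' : F true p1 < 0.5626
  t3 : 0.2811 < F true m1
  t3' : F true m1 < 0.2814
  t4 : 0.0311 < F true m2
  t4' : F true m2 < 0.0314
  f1 : 0.0311 < F false p2
  f1' : F false p2 < 0.0314
  f2 : 0.2811 < F false p1
  f2' : F false p1 < 0.2814
  f3 : 0.5624 < F false m1
  f3' : F false m1 < 0.5626
  f4 : 0.1249 < F false m2
  f4' : F false m2 < 0.1251

lemma Near.flip {F : Bool → S → ℝ} {p2 p1 m1 m2 : S} (h : Near F p2 p1 m1 m2) :
    Near (flipF F) m2 m1 p1 p2 :=
  ⟨fun f => by rw [h.hsum]; ring, h.f4, h.f4', h.f3, h.f3', h.f2, h.f2', h.f1, h.f1',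
    h.t4, h.t4', h.t3, h.t3', h.t2, h.t2', h.t1, h.t1'⟩

variable {F : Bool → S → ℝ} {t : Bool} {r : ℝ} {p2 p1 m1 m2 : S}

lemma near_levels (h : Near F p2 p1 m1 m2) (h1 : 3 / 5 < r) (h2 : r < 5 / 3) :
    lev F t r p2 = true ∧ lev F t r p1 = true ∧ lev F t r m1 = false ∧ lev F t r m2 = false := by
  obtain ⟨_, t1, t1', t2, t2', t3, t3', t4, t4', f1, f1', f2, f2', f3, f3', f4, f4'⟩ := h
  refine ⟨dec_true_of_lt ?_, dec_true_of_lt ?_, dec_false_of_lt ?_, dec_false_of_lt ?_⟩
  · nlinarith
  · nlinarith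
  · nlinarith
  · nlinarith

lemma near_lp (h : Near F p2 p1 m1 m2) (h1 : 3 / 5 < r) (h2 : r < 5 / 3) (b : Bool) :
    lp F t r b true = F b p2 + F b p1 ∧ lp F t r b false = F b m1 + F b m2 := by
  obtain ⟨e1, e2, e3, e4⟩ := near_levels (t := t) h h1 h2
  unfold lp
  rw [h.hsum, h.hsum, e1, e2, e3, e4]
  simp [ind]

/-- bounds for the first level likelihood ratios -/
lemma near_ratio (h : Near F p2 p1 m1 m2) (h1 : 3 / 5 < r) (h2 : r < 5 / 3) :
    2.19 < lp F t r true true / lp F t r false true ∧
    lp F t r true true / lp F t r false true < 2.21 ∧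
    0.45 < lp F t r true false / lp F t r false false ∧
    lp F t r true false / lp F t r false false < 0.46 := by
  rw [(near_lp (t := t) h h1 h2 true).1, (near_lp (t := t) h h1 h2 false).1,
    (near_lp (t := t) h h1 h2 true).2, (near_lp (t := t) h h1 h2 false).2]
  obtain ⟨_, t1, t1', t2, t2', t3, t3', t4, t4', f1, f1', f2, f2', f3, f3', f4, f4'⟩ := h
  refine ⟨?_, ?_, ?_, ?_⟩
  · rw [lt_div_iff₀ (by linarith)]; nlinarith
  · rw [div_lt_iff₀ (by linarith)]; nlinarith
  · rw [lt_div_iff₀ (by linarith)]; nlinarith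
  · rw [div_lt_iff₀ (by linarith)]; nlinarith

lemma near_zone (h : Near F p2 p1 m1 m2) (h1 : 3 / 5 < r) (h2 : r < 5 / 3) : Zone F t r := by
  obtain ⟨a1, a2, c1, c2⟩ := near_ratio (t := t) h h1 h2
  set a := lp F t r true true / lp F t r false true with ha
  set c := lp F t r true false / lp F t r false false with hc
  have hh := h
  obtain ⟨hsum, t1, t1', t2, t2', t3, t3', t4, t4', f1, f1', f2, f2', f3, f3', f4, f4'⟩ := hh
  have ra1 : 1.314 < r * a := by nlinarith
  have ra2 : r * a < 3.6834 := by nlinarith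
  have rc1 : 0.27 < r * c := by nlinarith
  have rc2 : r * c < 0.7667 := by nlinarith
  -- after a positive action
  have x1 : lev F t (r * a) p2 = true := dec_true_of_lt (by nlinarith)
  have x2 : lev F t (r * a) p1 = true := dec_true_of_lt (by nlinarith)
  have x4 : lev F t (r * a) m2 = false := dec_false_of_lt (by nlinarith)
  -- after a negative action
  have y1 : lev F t (r * c) p2 = true := dec_true_of_lt (by nlinarith)
  have y3 : lev F t (r * c) m1 = false := dec_false_of_lt (by nlinarith)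
  have y4 : lev F t (r * c) m2 = false := dec_false_of_lt (by nlinarith)
  refine ⟨by linarith, ⟨p2, by nlinarith⟩, ⟨m2, by nlinarith⟩, ⟨m2, x4⟩, ?_⟩
  rw [← ha, ← hc]
  unfold lp
  rw [hsum, hsum, hsum, hsum, x1, x2, x4, y1, y3, y4]
  cases hx : lev F t (r * a) m1 <;> cases hy : lev F t (r * c) p1
  · simp only [ind_true, ind_false, Bool.true_eq_false, not_false_eq_true, mul_one, mul_zero,
      zero_add]
    nlinarith
  · exfalso
    have g1 := le_of_dec_false hx
    have g2 := le_of_dec_true hy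
    -- r a F1(m1) ≤ F0(m1) and F0(p1) ≤ r c F1(p1)
    have g3 : r * (a * F true m1) ≤ F false m1 := by linarith
    have g4 : F false p1 ≤ r * (c * F true p1) := by linarith
    have g5 : 0.6156 < a * F true m1 := by nlinarith
    have g6 : c * F true p1 < 0.2589 := by nlinarith
    nlinarith
  · simp only [ind_true, ind_false, Bool.true_eq_false, not_false_eq_true, mul_one, mul_zero,
      zero_add]
    nlinarith
  · simp only [ind_true, ind_false, Bool.true_eq_false, not_false_eq_true, mul_one, mul_zero,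
      zero_add]
    nlinarith

lemma near_setup [Inhabited S] (h : Near F p2 p1 m1 m2) (hF : Law F) :
    Setup F t (3 / 5) (5 / 3) (5 / 2) (19 / 20) := by
  refine ⟨hF, by norm_num, by norm_num, by norm_num, by norm_num, by norm_num, by norm_num,
    fun r h1 h2 => near_zone h h1 h2, fun r h1 h2 => near_zone h.flip ?_ ?_, fun r h1 h2 => ?_,
    fun r h1 h2 => ?_, fun r h1 h2 => ?_⟩
  · have : 0 < r := by linarith
    rw [lt_inv_comm₀ (by norm_num) this]
    norm_num
    linarith
  · have : 0 < r := by linarith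
    rw [inv_lt_comm₀ this (by norm_num)]
    norm_num
    linarith
  · rw [(near_lp (t := t) h h1 h2 true).1, (near_lp (t := t) h h1 h2 false).1]
    linarith [h.t1', h.t2', h.f1, h.f2]
  · rw [(near_lp (t := t) h h1 h2 true).2, (near_lp (t := t) h h1 h2 false).2]
    linarith [h.t3, h.t4, h.f3', h.f4']
  · rw [(near_lp (t := t) h h1 h2 true).2, (near_lp (t := t) h h1 h2 false).2,
      (near_lp (t := t) h h1 h2 true).1, (near_lp (t := t) h h1 h2 false).1]
    obtain ⟨hsum, t1, t1', t2, t2', t3, t3', t4, t4', f1, f1', f2, f2', f3, f3', f4, f4'⟩ := h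
    have e1 : Real.sqrt ((F true p2 + F true p1) * (F false p2 + F false p1)) ≤ 0.47 := by
      rw [Real.sqrt_le_left (by norm_num)]
      nlinarith
    have e2 : Real.sqrt ((F true m1 + F true m2) * (F false m1 + F false m2)) ≤ 0.47 := by
      rw [Real.sqrt_le_left (by norm_num)]
      nlinarith
    linarith

end Pool.Agent.MP_a79c01_pr
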