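import Pool.Agent.MP_a79c01_pr.Gadget2

/-!
Uniform versions of the gadget: negative options and small positive options.
-/

set_option autoImplicit false

namespace Pool.Agent.MP_a79c01_pr

open Finset

variable {S : Type} [Fintype S] [Inhabited S]
variable {F : Bool → S → ℝ} {t : Bool} {r : ℝ} {N N' G : ℕ → Finset ℕ}

/-- choice of observed sets depending on finitely many signals only -/
lemma finite_choice (hN : WF N) (n : ℕ) (P : ℝ → Prop)
    (h : ∀ σ : ℕ → S, ∃ U ⊆ range n, P (LR F t r N n U σ)) :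
    ∃ A : Finset ℝ, (∀ z ∈ A, P z) ∧ ∀ σ : ℕ → S, ∃ U ⊆ range n, LR F t r N n U σ ∈ A := by
  classical
  choose U hU hP using h
  refine ⟨(Finset.univ : Finset (Fin n → S)).image fun x => LR F t r N n (U (ext n x)) (ext n x),
    ?_, fun σ => ?_⟩
  · intro z hz
    rw [Finset.mem_image] at hz
    obtain ⟨x, _, rfl⟩ := hz
    exact hP _
  · refine ⟨U (ext n fun i => σ i), hU _, ?_⟩
    rw [Finset.mem_image]
    refine ⟨fun i => σ i, Finset.mem_univ _, ?_⟩
    refine LR_depOn hN (hU _) n _ _ fun i hi => ?_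
    simp [ext, hi]

/-- negative options, uniformly -/
lemma options_neg (hF : Law F) (hZ : Zone F t r) :
    ∃ (G : ℕ → Finset ℕ) (g : ℕ) (c : ℝ), WF G ∧ 0 < g ∧ 0 < c ∧ c < 1 ∧
      ∀ σ : ℕ → S, ∃ U ⊆ range g, LR F t r G g U σ ≤ c := by
  obtain ⟨G, g, hG, hg, h⟩ := gadget_neg hF hZ
  obtain ⟨A, hA, hA'⟩ := finite_choice hG g (fun z => z < 1) h
  have hne : A.Nonempty := by
    obtain ⟨U, _, hU⟩ := hA' default
    exact ⟨_, hU⟩
  refine ⟨G, g, A.max' hne, hG, hg, ?_, hA _ (A.max'_mem hne), fun σ => ?_⟩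
  · obtain ⟨U, hUr, hU⟩ := hA' default
    exact (LR_pos hF hG hUr _).trans_le (A.le_max' _ hU)
  · obtain ⟨U, hUr, hU⟩ := hA' σ
    exact ⟨U, hUr, A.le_max' _ hU⟩

/-- the network without observations -/
def nul : ℕ → Finset ℕ := fun _ => ∅

lemma nul_WF : WF nul := fun _ => Finset.empty_subset _

lemma act_nul (hF : Law F) (n : ℕ) (ω : ℕ → S) : act F t r nul n ω = lev F t r (ω n) :=
  act_empty hF nul_WF rfl ω

lemma pr_nul (hF : Law F) {n : ℕ} {T : Finset ℕ} (hT : T ⊆ range n) (b : Bool) (ω : ℕ → S) :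
    pr F t r nul b n T ω = ∏ j ∈ T, lp F t r b (act F t r nul j ω) := by
  have h := Ex_product (p := F b) (hF.sum b) (n := n) T hT
    (fun j s => lev F t r s = act F t r nul j ω)
  unfold lp
  rw [← h]
  unfold pr Same
  refine Ex_congr fun ω' => ind_congr (forall₂_congr fun j _ => ?_)
  rw [act_nul hF j ω']

/-- small positive options -/
lemma gadget_pos (hF : Law F) (hZ : Zone (flipF F) (!t) r⁻¹) {κ : ℝ}
    (h₁ : ∃ s, F false s < r * F true s) (h₀ : ∃ s, r * F true s < F false s)
    (ha : lp F t r true true ≤ κ * lp F t r false true)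
    (hc : lp F t r false false ≤ κ * lp F t r true false) :
    ∃ (G : ℕ → Finset ℕ) (g : ℕ), WF G ∧ 0 < g ∧
      ∀ σ : ℕ → S, ∃ U ⊆ range g, 1 < LR F t r G g U σ ∧ LR F t r G g U σ ≤ κ := by
  have hr : 0 < r := inv_pos.mp hZ.hr
  obtain ⟨G, g, hG, hg, h⟩ := gadget_neg (flipF_law hF) hZ
  have h' : ∀ σ : ℕ → S, ∃ U ⊆ range g, 1 < LR F t r G g U σ := by
    intro σ
    obtain ⟨U, hU, hlt⟩ := h σ
    refine ⟨U, hU, ?_⟩
    rw [LR_flip hG hr] at hlt
    exact (inv_lt_one₀ (LR_pos hF hG hU σ)).mp hlt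
  obtain ⟨A, hA, hA'⟩ := finite_choice hG g (fun z => 1 < z) h'
  obtain ⟨s₁, hs₁⟩ := h₁
  obtain ⟨s₀, hs₀⟩ := h₀
  have hl1 : lev F t r s₁ = true := dec_true_of_lt hs₁
  have hl0 : lev F t r s₀ = false := dec_false_of_lt hs₀
  have ptt := lp_pos (t := t) hF r true true s₁ hl1
  have pft := lp_pos (t := t) hF r false true s₁ hl1
  have ptf := lp_pos (t := t) hF r true false s₀ hl0
  have pff := lp_pos (t := t) hF r false false s₀ hl0
  -- level one factors
  have i0 := info (t := t) hF nul_WF 0 s₁ s₀ hs₁ hs₀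
  have e0 : ∀ (b v : Bool), Ex (F b) (0 + 1) (fun ω => ind (act F t r nul 0 ω = v)) =
      lp F t r b v := by
    intro b v
    have h1 := Ex_product (p := F b) (hF.sum b) (n := 0 + 1) {0} (by simp)
      (fun _ s => lev F t r s = v)
    rw [Finset.prod_singleton] at h1
    unfold lp
    rw [← h1]
    refine Ex_congr fun ω => ind_congr ?_
    rw [act_nul hF]
    simp
  rw [e0, e0] at i0
  have st := lp_add (t := t) hF r true
  have sf := lp_add (t := t) hF r false
  set c := lp F t r true false / lp F t r false false with hcdef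
  have hc1 : c < 1 := (div_lt_one pff).mpr i0
  have hc0 : 0 < c := div_pos ptf pff
  have hinv : 1 / c ≤ κ := by
    rw [hcdef, one_div_div, div_le_iff₀ ptf]
    exact hc
  have hane : A.Nonempty := by
    obtain ⟨U, _, hU⟩ := hA' default
    exact ⟨_, hU⟩
  have hCpos : 1 < A.max' hane := hA _ (A.max'_mem hane)
  obtain ⟨y, hy⟩ := exists_pow_lt_of_lt_one (show 0 < 1 / A.max' hane by positivity) hc1
  have hW := attach_WF (n := y) nul_WF hG (Finset.empty_subset (range y))
  refine ⟨attach nul y ∅ G, y + g, hW, by omega, fun σ => ?_⟩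
  have hodds : r * LR F t r nul y ∅ σ = r := by
    rw [LR, pr_empty hF, pr_empty hF]; simp
  by_cases hex : ∃ l < y, act F t r nul l σ = true
  · obtain ⟨l, hl, hact⟩ := hex
    have hlr : ({l} : Finset ℕ) ⊆ range y := by simpa using hl
    refine ⟨{l}, by simp; omega, ?_⟩
    have h1 : LR F t r (attach nul y ∅ G) (y + g) {l} σ =
        lp F t r true true / lp F t r false true := by
      rw [LR_local hF hW (Nat.le_add_right y g) hlr,
        LR_congr_net hW nul_WF (fun i hi => attach_lt hi) hlr]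
      unfold LR
      rw [pr_nul hF hlr, pr_nul hF hlr, Finset.prod_singleton, Finset.prod_singleton, hact]
    rw [h1]
    constructor
    · rw [one_lt_div pft]; linarith
    · rw [div_le_iff₀ pft]; exact ha
  · push Not at hex
    have hall : ∀ l < y, act F t r nul l σ = false := fun l hl => by simpa using hex l hl
    obtain ⟨U, hU, hUA⟩ := hA' (shift y σ)
    set L := LR F t r G g U (shift y σ) with hL
    have hL1 : 1 < L := hA _ hUA
    have hLC : L ≤ A.max' hane := A.le_max' _ hUA
    have hform : ∀ j ≤ y, LR F t r (attach nul y ∅ G) (y + g)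
        (range j ∪ U.map (addLeftEmbedding y)) σ = c ^ j * L := by
      intro j hj
      have hjr : range j ⊆ range y := Finset.range_subset_range.mpr hj
      rw [LR_attach hF nul_WF hG (Finset.empty_subset _) g hjr (Finset.empty_subset _) hU,
        hodds, ← hL]
      congr 1
      unfold LR
      rw [pr_nul hF hjr, pr_nul hF hjr]
      have h1 : ∀ b, ∏ l ∈ range j, lp F t r b (act F t r nul l σ) = lp F t r b false ^ j := by
        intro b
        rw [Finset.prod_congr rfl fun l hl => by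
          rw [hall l (lt_of_lt_of_le (Finset.mem_range.mp hl) hj)]]
        simp
      rw [h1, h1, hcdef, div_pow]
    have hyL : c ^ y * L < 1 := by
      rw [lt_div_iff₀ (by linarith)] at hy
      calc c ^ y * L ≤ c ^ y * A.max' hane := mul_le_mul_of_nonneg_left hLC (by positivity)
        _ < 1 := hy
    classical
    have hexj : ∃ j, c ^ j * L ≤ 1 := ⟨y, hyL.le⟩
    set j₁ := Nat.find hexj with hj₁
    have hj1 : c ^ j₁ * L ≤ 1 := Nat.find_spec hexj
    have hj1y : j₁ ≤ y := Nat.find_min' hexj hyL.le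
    have hj10 : j₁ ≠ 0 := by
      intro h0
      rw [h0, pow_zero, one_mul] at hj1
      linarith
    obtain ⟨j, hj⟩ := Nat.exists_eq_succ_of_ne_zero hj10
    have hjlt : ¬ c ^ j * L ≤ 1 := Nat.find_min hexj (by omega)
    push Not at hjlt
    refine ⟨range j ∪ U.map (addLeftEmbedding y), ?_, ?_, ?_⟩
    · intro x hx
      rw [Finset.mem_union, Finset.mem_range, Finset.mem_map] at hx
      rw [Finset.mem_range]
      rcases hx with hx | ⟨u, hu, rfl⟩
      · omega
      · have := Finset.mem_range.mp (hU hu)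
        simp only [addLeftEmbedding_apply]
        omega
    · rw [hform j (by omega)]; exact hjlt
    · rw [hform j (by omega)]
      refine le_trans ?_ hinv
      rw [le_div_iff₀ hc0]
      have : c ^ (j + 1) * L ≤ 1 := by
        have := hj1
        rwa [hj] at this
      calc c ^ j * L * c = c ^ (j + 1) * L := by ring
        _ ≤ 1 := this

/-- small positive options, uniformly -/
lemma options_pos (hF : Law F) (hZ : Zone (flipF F) (!t) r⁻¹) {κ : ℝ}
    (h₁ : ∃ s, F false s < r * F true s) (h₀ : ∃ s, r * F true s < F false s)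
    (ha : lp F t r true true ≤ κ * lp F t r false true)
    (hc : lp F t r false false ≤ κ * lp F t r true false) :
    ∃ (G : ℕ → Finset ℕ) (g : ℕ) (c : ℝ), WF G ∧ 0 < g ∧ 1 < c ∧
      ∀ σ : ℕ → S, ∃ U ⊆ range g, c ≤ LR F t r G g U σ ∧ LR F t r G g U σ ≤ κ := by
  obtain ⟨G, g, hG, hg, h⟩ := gadget_pos hF hZ h₁ h₀ ha hc
  obtain ⟨A, hA, hA'⟩ := finite_choice hG g (fun z => 1 < z ∧ z ≤ κ) h
  have hne : A.Nonempty := by
    obtain ⟨U, _, hU⟩ := hA' default
    exact ⟨_, hU⟩
  refine ⟨G, g, A.min' hne, hG, hg, (hA _ (A.min'_mem hne)).1, fun σ => ?_⟩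
  obtain ⟨U, hUr, hU⟩ := hA' σ
  exact ⟨U, hUr, A.min'_le _ hU, (hA _ hU).2⟩

end Pool.Agent.MP_a79c01_pr
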