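import Pool.Agent.MP_a79c01_pr.Pos

/-!
One stage of the construction.
-/

set_option autoImplicit false

namespace Pool.Agent.MP_a79c01_pr

open Finset

variable {S : Type} [Fintype S] [Inhabited S]
variable {F : Bool → S → ℝ} {t : Bool}

/-- the standing assumptions -/
structure Setup (F : Bool → S → ℝ) (t : Bool) (zl zh κ ρ : ℝ) : Prop where
  law : Law F
  hzl : 0 < zl
  hzl1 : zl < 1
  hzh1 : 1 < zh
  hκ : zl * κ < zh
  hρ0 : 0 < ρ
  hρ1 : ρ < 1
  zone : ∀ r, zl < r → r < zh → Zone F t r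
  zone' : ∀ r, zl < r → r < zh → Zone (flipF F) (!t) r⁻¹
  ha : ∀ r, zl < r → r < zh → lp F t r true true ≤ κ * lp F t r false true
  hc : ∀ r, zl < r → r < zh → lp F t r false false ≤ κ * lp F t r true false
  hbc : ∀ r, zl < r → r < zh → Real.sqrt (lp F t r true true * lp F t r false true) +
    Real.sqrt (lp F t r true false * lp F t r false false) ≤ ρ

/-- conditional Bhattacharyya weight of the agents `n₁ ≤ i < n₁ + e` -/
noncomputable def HB (F : Bool → S → ℝ) (t : Bool) (M : ℕ → Finset ℕ) (n₁ e : ℕ)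
    (ω : ℕ → S) : ℝ :=
  Ex (F false) e (fun σ => Real.sqrt (LR F t 1 M (n₁ + e) (range (n₁ + e)) (glue n₁ ω σ)))

lemma LR_glue {M : ℕ → Finset ℕ} (hM : WF M) {n₁ : ℕ} {B : Finset ℕ} (hB : B ⊆ range n₁)
    (k : ℕ) (ω σ : ℕ → S) : LR F t 1 M k B (glue n₁ ω σ) = LR F t 1 M k B ω :=
  LR_depOn hM hB k _ _ fun i hi => glue_lt n₁ ω σ i hi

lemma HB_attach (hF : Law F) {M G : ℕ → Finset ℕ} (hM : WF M) (hG : WF G) {n₁ e g : ℕ}
    {B : Finset ℕ} (hB : B ⊆ range n₁) (ω : ℕ → S) :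
    HB F t (attach M (n₁ + e) B G) n₁ (e + g) ω =
      HB F t M n₁ e ω * BC F t (LR F t 1 M (n₁ + e) B ω) G g (range g) := by
  have hB' : B ⊆ range (n₁ + e) := hB.trans (Finset.range_subset_range.mpr (by omega))
  have hr : range (n₁ + (e + g)) = range (n₁ + e) ∪ (range g).map (addLeftEmbedding (n₁ + e)) := by
    rw [← add_assoc, Finset.range_eq_Ico, Finset.range_eq_Ico, Finset.range_eq_Ico]
    rw [Finset.map_add_left_Ico]
    rw [add_zero]
    exact (Finset.Ico_union_Ico_eq_Ico (Nat.zero_le _) (Nat.le_add_right _ _)).symm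
  unfold HB
  rw [hr]
  have h1 : ∀ σ : ℕ → S, Real.sqrt (LR F t 1 (attach M (n₁ + e) B G) (n₁ + (e + g))
      (range (n₁ + e) ∪ (range g).map (addLeftEmbedding (n₁ + e))) (glue n₁ ω σ)) =
      Real.sqrt (LR F t 1 M (n₁ + e) (range (n₁ + e)) (glue n₁ ω σ)) *
        (fun τ => Real.sqrt (LR F t (LR F t 1 M (n₁ + e) B ω) G g (range g) τ)) (shift e σ) := by
    intro σ
    rw [← add_assoc, LR_attach hF hM hG hB' g (Finset.Subset.refl _) hB' (Finset.Subset.refl _)]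
    rw [Real.sqrt_mul (LR_pos hF hM (Finset.Subset.refl _) _).le, one_mul, LR_glue hM hB]
    simp only
    congr 3
    funext i
    unfold shift glue
    have : ¬ n₁ + e + i < n₁ := by omega
    rw [if_neg this]
    congr 1
    omega
  rw [Ex_congr h1]
  refine (Ex_prod (p := F false) (n := e) (g := g)
    (f := fun σ => Real.sqrt (LR F t 1 M (n₁ + e) (range (n₁ + e)) (glue n₁ ω σ)))
    (h := fun τ => Real.sqrt (LR F t (LR F t 1 M (n₁ + e) B ω) G g (range g) τ)) ?_).trans rfl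
  intro σ σ' h
  simp only
  rw [LR_depOn hM (Finset.Subset.refl (range (n₁ + e))) (n₁ + e) (glue n₁ ω σ) (glue n₁ ω σ')]
  intro i hi
  unfold glue
  split_ifs with h1
  · rfl
  · exact h _ (by omega)

/-- an extension all of whose new agents observe `B` -/
structure Step (F : Bool → S → ℝ) (t : Bool) (n₁ : ℕ) (B : Finset ℕ) (M : ℕ → Finset ℕ) (e : ℕ)
    (M' : ℕ → Finset ℕ) (e' : ℕ) : Prop where
  wf : WF M'
  le : e ≤ e'
  agree : ∀ i < n₁ + e, M' i = M i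
  sup : ∀ i, n₁ + e ≤ i → i < n₁ + e' → B ⊆ M' i
  hb : ∀ ω : ℕ → S, HB F t M' n₁ e' ω ≤ HB F t M n₁ e ω

lemma Step.refl {n₁ : ℕ} {B : Finset ℕ} {M : ℕ → Finset ℕ} {e : ℕ} (h : WF M) :
    Step F t n₁ B M e M e :=
  ⟨h, le_rfl, fun _ _ => rfl, fun i h1 h2 => by omega, fun _ => le_rfl⟩

lemma Step.trans {n₁ : ℕ} {B : Finset ℕ} {M M' M'' : ℕ → Finset ℕ} {e e' e'' : ℕ}
    (h : Step F t n₁ B M e M' e') (h' : Step F t n₁ B M' e' M'' e'') :
    Step F t n₁ B M e M'' e'' := by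
  refine ⟨h'.wf, h.le.trans h'.le, fun i hi => ?_, fun i h1 h2 => ?_, fun ω =>
    (h'.hb ω).trans (h.hb ω)⟩
  · rw [h'.agree i (by have := h.le; omega), h.agree i hi]
  · by_cases h3 : i < n₁ + e'
    · rw [h'.agree i h3]
      exact h.sup i h1 h3
    · exact h'.sup i (by omega) h2

lemma BC_level_one (hF : Law F) (r : ℝ) : BC F t r nul 1 (range 1) =
    Real.sqrt (lp F t r true true * lp F t r false true) +
    Real.sqrt (lp F t r true false * lp F t r false false) := by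
  have hT : ({0} : Finset ℕ) ⊆ range 1 := by simp
  have e0 : ∀ (b v : Bool), Ex (F b) 1 (fun ω => ind (act F t r nul 0 ω = v)) =
      lp F t r b v := by
    intro b v
    have h1 := Ex_product (p := F b) (hF.sum b) (n := 1) {0} (by simp)
      (fun _ s => lev F t r s = v)
    rw [Finset.prod_singleton] at h1
    unfold lp
    rw [← h1]
    refine Ex_congr fun ω => ind_congr ?_
    rw [act_nul hF]
    simp
  have key : ∀ ω : ℕ → S, Real.sqrt (LR F t r nul 1 {0} ω) =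
      Real.sqrt (lp F t r true true / lp F t r false true) * ind (act F t r nul 0 ω = true) +
      Real.sqrt (lp F t r true false / lp F t r false false) *
        ind (act F t r nul 0 ω = false) := by
    intro ω
    unfold LR
    rw [pr_nul hF hT, pr_nul hF hT, Finset.prod_singleton, Finset.prod_singleton]
    cases act F t r nul 0 ω
    · rw [ind_true rfl, ind_false (by simp)]; ring
    · rw [ind_true rfl, ind_false (by simp)]; ring
  have aux : ∀ x y : ℝ, 0 ≤ x → 0 ≤ y → Real.sqrt (x / y) * y = Real.sqrt (x * y) := by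
    intro x y hx hy
    rcases hy.eq_or_lt with h | h
    · rw [← h]; simp
    · have h1 : x * y = (x / y) * (y * y) := by field_simp
      rw [h1, Real.sqrt_mul (div_nonneg hx hy), Real.sqrt_mul_self hy]
  unfold BC
  rw [Finset.range_one, Ex_congr key, Ex_add_fun, Ex_mul_left, Ex_mul_left, e0, e0,
    aux _ _ (lp_nonneg hF _ _ _) (lp_nonneg hF _ _ _),
    aux _ _ (lp_nonneg hF _ _ _) (lp_nonneg hF _ _ _)]

lemma HB_nonneg (hF : Law F) (M : ℕ → Finset ℕ) (n₁ e : ℕ) (ω : ℕ → S) : 0 ≤ HB F t M n₁ e ω :=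
  Ex_nonneg (fun s => (hF.pos false s).le) fun _ => Real.sqrt_nonneg _

lemma step_attach (hF : Law F) {M G : ℕ → Finset ℕ} (hM : WF M) (hG : WF G) {n₁ e g : ℕ}
    {B : Finset ℕ} (hB : B ⊆ range n₁) :
    Step F t n₁ B M e (attach M (n₁ + e) B G) (e + g) := by
  have hB' : B ⊆ range (n₁ + e) := hB.trans (Finset.range_subset_range.mpr (by omega))
  refine ⟨attach_WF hM hG hB', Nat.le_add_right _ _, fun i hi => attach_lt hi,
    fun i h1 _ => ?_, fun ω => ?_⟩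
  · obtain ⟨j, rfl⟩ := Nat.exists_eq_add_of_le h1
    rw [attach_ge]
    exact Finset.subset_union_left
  · rw [HB_attach hF hM hG hB]
    exact mul_le_of_le_one_right (HB_nonneg hF _ _ _ _) (BC_le_one hF hG (Finset.Subset.refl _))

/-- attaching one agent at `B` contracts -/
lemma step_informer {zl zh κ ρ : ℝ} (hS : Setup F t zl zh κ ρ) {M : ℕ → Finset ℕ} (hM : WF M)
    {n₁ e : ℕ} {B : Finset ℕ} (hB : B ⊆ range n₁) :
    ∀ ω : ℕ → S, zl < LR F t 1 M n₁ B ω → LR F t 1 M n₁ B ω < zh →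
      HB F t (attach M (n₁ + e) B nul) n₁ (e + 1) ω ≤ ρ * HB F t M n₁ e ω := by
  intro ω h1 h2
  rw [HB_attach hS.law hM nul_WF hB, LR_local hS.law hM (Nat.le_add_right n₁ e) hB,
    BC_level_one hS.law, mul_comm]
  exact mul_le_mul_of_nonneg_right (hS.hbc _ h1 h2) (HB_nonneg hS.law _ _ _ _)

lemma LR_lower (hF : Law F) {M : ℕ → Finset ℕ} (hM : WF M) (n : ℕ) :
    ∃ y : ℝ, 0 < y ∧ ∀ T ⊆ range n, ∀ ω : ℕ → S, y ≤ LR F t 1 M n T ω := by
  classical
  set A := ((range n).powerset ×ˢ (Finset.univ : Finset (Fin n → S))).image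
    fun z => LR F t 1 M n z.1 (ext n z.2) with hA
  have hmem : ∀ T ⊆ range n, ∀ ω : ℕ → S, LR F t 1 M n T ω ∈ A := by
    intro T hT ω
    rw [hA, Finset.mem_image]
    refine ⟨(T, fun i => ω i), ?_, ?_⟩
    · simp [hT]
    · refine LR_depOn hM hT n _ _ fun i hi => ?_
      simp [ext, hi]
  have hne : A.Nonempty := ⟨_, hmem ∅ (Finset.empty_subset _) default⟩
  refine ⟨A.min' hne, ?_, fun T hT ω => A.min'_le _ (hmem T hT ω)⟩
  obtain ⟨z, hz, hz'⟩ := Finset.mem_image.mp (A.min'_mem hne)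
  rw [Finset.mem_product, Finset.mem_powerset] at hz
  rw [← hz']
  exact LR_pos hF hM hz.1 _

/-- the sets observed later -/
def Obs (n₁ n : ℕ) (T : Finset ℕ) : Prop := range n₁ ⊆ T ∧ T ⊆ range n

lemma attach_obs (hF : Law F) {M G : ℕ → Finset ℕ} (hM : WF M) (hG : WF G) {n₁ e g : ℕ}
    {B : Finset ℕ} (hB : B ⊆ range n₁) {T : Finset ℕ} (hT : Obs n₁ (n₁ + e) T)
    {U : Finset ℕ} (hU : U ⊆ range g) (ω : ℕ → S) :
    Obs n₁ (n₁ + (e + g)) (T ∪ U.map (addLeftEmbedding (n₁ + e))) ∧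
    LR F t 1 (attach M (n₁ + e) B G) (n₁ + (e + g)) (T ∪ U.map (addLeftEmbedding (n₁ + e))) ω =
      LR F t 1 M (n₁ + e) T ω * LR F t (LR F t 1 M n₁ B ω) G g U (shift (n₁ + e) ω) := by
  have hB' : B ⊆ range (n₁ + e) := hB.trans (Finset.range_subset_range.mpr (by omega))
  refine ⟨⟨hT.1.trans Finset.subset_union_left, ?_⟩, ?_⟩
  · intro x hx
    rw [Finset.mem_union, Finset.mem_map] at hx
    rw [Finset.mem_range]
    rcases hx with hx | ⟨u, hu, rfl⟩
    · have := Finset.mem_range.mp (hT.2 hx); omega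
    · have := Finset.mem_range.mp (hU hu)
      simp only [addLeftEmbedding_apply]
      omega
  · rw [← add_assoc, LR_attach hF hM hG hB' g hT.2 (hB.trans hT.1) hU, one_mul,
      LR_local hF hM (Nat.le_add_right n₁ e) hB]

lemma old_obs (hF : Law F) {M M' : ℕ → Finset ℕ} (hM : WF M) {n₁ e e' : ℕ}
    {B : Finset ℕ} (hst : Step F t n₁ B M e M' e') {T : Finset ℕ} (hT : Obs n₁ (n₁ + e) T)
    (ω : ℕ → S) :
    Obs n₁ (n₁ + e') T ∧ LR F t 1 M' (n₁ + e') T ω = LR F t 1 M (n₁ + e) T ω := by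
  have hle : n₁ + e ≤ n₁ + e' := by have := hst.le; omega
  refine ⟨⟨hT.1, hT.2.trans (Finset.range_subset_range.mpr hle)⟩, ?_⟩
  rw [LR_local hF hst.wf hle hT.2, LR_congr_net hst.wf hM hst.agree hT.2]

/-- pushing the likelihood ratio down -/
lemma push_down {zl zh κ ρ : ℝ} (hS : Setup F t zl zh κ ρ) {M : ℕ → Finset ℕ} (hM : WF M)
    {n₁ e : ℕ} {B : Finset ℕ} (hB : B ⊆ range n₁) (ω₁ : ℕ → S)
    (h1 : zl < LR F t 1 M n₁ B ω₁) (h2 : LR F t 1 M n₁ B ω₁ < zh) :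
    ∃ M' e', Step F t n₁ B M e M' e' ∧ ∀ ω : ℕ → S, (∀ i < n₁, ω i = ω₁ i) →
      ∃ T, Obs n₁ (n₁ + e') T ∧ LR F t 1 M' (n₁ + e') T ω ≤ zl := by
  obtain ⟨G, g, c, hG, hg, hc0, hc1, hopt⟩ := options_neg hS.law (hS.zone _ h1 h2)
  set X := LR F t 1 M n₁ (range n₁) ω₁ with hX
  have hXpos : 0 < X := LR_pos hS.law hM (Finset.Subset.refl _) _
  have key : ∀ j : ℕ, ∃ M' e', Step F t n₁ B M e M' e' ∧ ∀ ω : ℕ → S,
      (∀ i < n₁, ω i = ω₁ i) →
      ∃ T, Obs n₁ (n₁ + e') T ∧ LR F t 1 M' (n₁ + e') T ω ≤ c ^ j * X := by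
    intro j
    induction j with
    | zero =>
      refine ⟨M, e, Step.refl hM, fun ω hω => ⟨range n₁, ⟨Finset.Subset.refl _,
        Finset.range_subset_range.mpr (by omega)⟩, ?_⟩⟩
      rw [LR_local hS.law hM (Nat.le_add_right n₁ e) (Finset.Subset.refl _), pow_zero, one_mul,
        hX, LR_depOn hM (Finset.Subset.refl _) n₁ ω ω₁ hω]
    | succ j ih =>
      obtain ⟨M', e', hst, hobs⟩ := ih
      refine ⟨attach M' (n₁ + e') B G, e' + g, hst.trans (step_attach hS.law hst.wf hG hB),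
        fun ω hω => ?_⟩
      obtain ⟨T, hT, hLR⟩ := hobs ω hω
      obtain ⟨U, hU, hUc⟩ := hopt (shift (n₁ + e') ω)
      obtain ⟨hobs', hLR'⟩ := attach_obs (t := t) hS.law hst.wf hG hB hT hU ω
      refine ⟨_, hobs', ?_⟩
      have hbase : LR F t 1 M' n₁ B ω = LR F t 1 M n₁ B ω₁ := by
        rw [LR_congr_net hst.wf hM (fun i hi => hst.agree i (by omega)) hB,
          LR_depOn hM hB n₁ ω ω₁ hω]
      rw [hLR', hbase]
      have hT0 := LR_pos (t := t) (r := 1) hS.law hst.wf hT.2 ω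
      calc _ ≤ (c ^ j * X) * c := mul_le_mul hLR hUc
            (LR_pos hS.law hG hU _).le (by positivity)
        _ = c ^ (j + 1) * X := by ring
  obtain ⟨j, hj⟩ := exists_pow_lt_of_lt_one (show 0 < zl / X by
    have := hS.hzl; positivity) hc1
  obtain ⟨M', e', hst, h⟩ := key j
  refine ⟨M', e', hst, fun ω hω => ?_⟩
  obtain ⟨T, hT, hLR⟩ := h ω hω
  refine ⟨T, hT, hLR.trans ?_⟩
  rw [lt_div_iff₀ hXpos] at hj
  exact hj.le

/-- raising the likelihood ratio into the zone -/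
lemma push_up {zl zh κ ρ : ℝ} (hS : Setup F t zl zh κ ρ) {M : ℕ → Finset ℕ} (hM : WF M)
    {n₁ e : ℕ} {B : Finset ℕ} (hB : B ⊆ range n₁) (ω₁ : ℕ → S)
    (h1 : zl < LR F t 1 M n₁ B ω₁) (h2 : LR F t 1 M n₁ B ω₁ < zh)
    (h : ∀ ω : ℕ → S, (∀ i < n₁, ω i = ω₁ i) →
      ∃ T, Obs n₁ (n₁ + e) T ∧ LR F t 1 M (n₁ + e) T ω ≤ zl) :
    ∃ M' e', Step F t n₁ B M e M' e' ∧ ∀ ω : ℕ → S, (∀ i < n₁, ω i = ω₁ i) →
      ∃ T, Obs n₁ (n₁ + e') T ∧ zl < LR F t 1 M' (n₁ + e') T ω ∧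
        LR F t 1 M' (n₁ + e') T ω < zh := by
  have hz := hS.zone _ h1 h2
  obtain ⟨G, g, c, hG, hg, hc1, hopt⟩ := options_pos (κ := κ) hS.law (hS.zone' _ h1 h2)
    hz.up hz.dn (hS.ha _ h1 h2) (hS.hc _ h1 h2)
  obtain ⟨y, hy, hylow⟩ := LR_lower (t := t) hS.law hM (n₁ + e)
  have key : ∀ j : ℕ, ∃ M' e', Step F t n₁ B M e M' e' ∧ ∀ ω : ℕ → S,
      (∀ i < n₁, ω i = ω₁ i) →
      ∃ T, Obs n₁ (n₁ + e') T ∧ ((zl < LR F t 1 M' (n₁ + e') T ω ∧
        LR F t 1 M' (n₁ + e') T ω < zh) ∨ (c ^ j * y ≤ LR F t 1 M' (n₁ + e') T ω ∧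
        LR F t 1 M' (n₁ + e') T ω ≤ zl)) := by
    intro j
    induction j with
    | zero =>
      refine ⟨M, e, Step.refl hM, fun ω hω => ?_⟩
      obtain ⟨T, hT, hLR⟩ := h ω hω
      refine ⟨T, hT, Or.inr ⟨?_, hLR⟩⟩
      rw [pow_zero, one_mul]
      exact hylow T hT.2 ω
    | succ j ih =>
      obtain ⟨M', e', hst, hobs⟩ := ih
      have hst2 := step_attach (t := t) (e := e') (g := g) hS.law hst.wf hG hB
      refine ⟨attach M' (n₁ + e') B G, e' + g, hst.trans hst2, fun ω hω => ?_⟩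
      obtain ⟨T, hT, hLR | ⟨hLR, hLR2⟩⟩ := hobs ω hω
      · obtain ⟨hT', hLR'⟩ := old_obs hS.law hst.wf hst2 hT ω
        refine ⟨T, hT', Or.inl ?_⟩
        rw [hLR']
        exact hLR
      · obtain ⟨U, hU, hUc, hUκ⟩ := hopt (shift (n₁ + e') ω)
        obtain ⟨hobs', hLR'⟩ := attach_obs (t := t) hS.law hst.wf hG hB hT hU ω
        refine ⟨_, hobs', ?_⟩
        have hbase : LR F t 1 M' n₁ B ω = LR F t 1 M n₁ B ω₁ := by
          rw [LR_congr_net hst.wf hM (fun i hi => hst.agree i (by omega)) hB,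
            LR_depOn hM hB n₁ ω ω₁ hω]
        rw [hLR', hbase]
        set L := LR F t 1 M' (n₁ + e') T ω
        set f := LR F t (LR F t 1 M n₁ B ω₁) G g U (shift (n₁ + e') ω)
        have hL0 : 0 < L := LR_pos (t := t) (r := 1) hS.law hst.wf hT.2 ω
        have hlow : c ^ (j + 1) * y ≤ L * f := by
          calc c ^ (j + 1) * y = (c ^ j * y) * c := by ring
            _ ≤ L * f := mul_le_mul hLR hUc (by linarith) hL0.le
        by_cases hz : L * f ≤ zl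
        · exact Or.inr ⟨hlow, hz⟩
        · left
          push Not at hz
          refine ⟨hz, ?_⟩
          calc L * f ≤ zl * κ := mul_le_mul hLR2 hUκ (by linarith) hS.hzl.le
            _ < zh := hS.hκ
  obtain ⟨j, hj⟩ := pow_unbounded_of_one_lt (zl / y) hc1
  obtain ⟨M', e', hst, h⟩ := key j
  refine ⟨M', e', hst, fun ω hω => ?_⟩
  obtain ⟨T, hT, hLR | ⟨hLR, hLR2⟩⟩ := h ω hω
  · exact ⟨T, hT, hLR⟩
  · exfalso
    rw [div_lt_iff₀ hy] at hj
    linarith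

/-- processing one signal realisation -/
lemma process_one {zl zh κ ρ : ℝ} (hS : Setup F t zl zh κ ρ) {M : ℕ → Finset ℕ} (hM : WF M)
    {n₁ e : ℕ} {B : Finset ℕ} (hB : B ⊆ range n₁) (ω₁ : ℕ → S)
    (h1 : zl < LR F t 1 M n₁ B ω₁) (h2 : LR F t 1 M n₁ B ω₁ < zh) :
    ∃ M' e', Step F t n₁ B M e M' e' ∧ e < e' ∧ ∀ ω : ℕ → S, (∀ i < n₁, ω i = ω₁ i) →
      HB F t M' n₁ e' ω ≤ ρ * HB F t M n₁ e ω ∧
      ∃ T, Obs n₁ (n₁ + e') T ∧ zl < LR F t 1 M' (n₁ + e') T ω ∧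
        LR F t 1 M' (n₁ + e') T ω < zh := by
  have st1 := step_attach (t := t) (e := e) (g := 1) hS.law hM nul_WF hB
  have c1 := step_informer (e := e) hS hM hB
  set M1 := attach M (n₁ + e) B nul with hM1
  have hb1 : LR F t 1 M1 n₁ B ω₁ = LR F t 1 M n₁ B ω₁ :=
    LR_congr_net st1.wf hM (fun i hi => st1.agree i (by omega)) hB _ _
  obtain ⟨M2, e2, st2, hd⟩ := push_down (e := e + 1) hS st1.wf hB ω₁ (by rw [hb1]; exact h1)
    (by rw [hb1]; exact h2)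
  have hb2 : LR F t 1 M2 n₁ B ω₁ = LR F t 1 M n₁ B ω₁ := by
    rw [LR_congr_net st2.wf st1.wf (fun i hi => st2.agree i (by omega)) hB, hb1]
  obtain ⟨M3, e3, st3, hu⟩ := push_up (e := e2) hS st2.wf hB ω₁ (by rw [hb2]; exact h1)
    (by rw [hb2]; exact h2) hd
  refine ⟨M3, e3, st1.trans (st2.trans st3), ?_, fun ω hω => ⟨?_, hu ω hω⟩⟩
  · have := st2.le
    have := st3.le
    omega
  · have hbω : LR F t 1 M n₁ B ω = LR F t 1 M n₁ B ω₁ := LR_depOn hM hB n₁ ω ω₁ hω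
    calc HB F t M3 n₁ e3 ω ≤ HB F t M1 n₁ (e + 1) ω := (st2.trans st3).hb ω
      _ ≤ ρ * HB F t M n₁ e ω := c1 ω (by rw [hbω]; exact h1) (by rw [hbω]; exact h2)

/-- the invariant -/
def Good (F : Bool → S → ℝ) (t : Bool) (zl zh ρ β : ℝ) (N : ℕ → Finset ℕ) (n : ℕ) : Prop :=
  WF N ∧ BC F t 1 N n (range n) ≤ β ∧ ∀ ω : ℕ → S, ∃ B ⊆ range n,
    zl < LR F t 1 N n B ω ∧ LR F t 1 N n B ω < zh ∧ BC F t 1 N n B * ρ ≤ β

lemma stage {zl zh κ ρ β : ℝ} (hS : Setup F t zl zh κ ρ) {N : ℕ → Finset ℕ} {n₁ : ℕ}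
    (hN : Good F t zl zh ρ β N n₁) :
    ∃ N' n', Good F t zl zh ρ (ρ * β) N' n' ∧ n₁ < n' ∧ (∀ i < n₁, N' i = N i) ∧
      ∀ i, n₁ ≤ i → i < n' → ∃ B ⊆ range n₁, B ⊆ N' i ∧ BC F t 1 N n₁ B * ρ ≤ β := by
  classical
  obtain ⟨hWF, hβ, hB⟩ := hN
  have key : ∀ P : Finset (Fin n₁ → S), ∃ M e, WF M ∧ (P.Nonempty → 0 < e) ∧
      (∀ i < n₁, M i = N i) ∧
      (∀ i, n₁ ≤ i → i < n₁ + e → ∃ B ⊆ range n₁, B ⊆ M i ∧ BC F t 1 N n₁ B * ρ ≤ β) ∧
      (∀ ω : ℕ → S, HB F t M n₁ e ω ≤ HB F t N n₁ 0 ω) ∧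
      ∀ x ∈ P, ∀ ω : ℕ → S, (∀ i < n₁, ω i = ext n₁ x i) →
        HB F t M n₁ e ω ≤ ρ * HB F t N n₁ 0 ω ∧
        ∃ T, Obs n₁ (n₁ + e) T ∧ zl < LR F t 1 M (n₁ + e) T ω ∧
          LR F t 1 M (n₁ + e) T ω < zh := by
    intro P
    induction P using Finset.induction_on with
    | empty =>
      exact ⟨N, 0, hWF, fun h => absurd h (by simp), fun _ _ => rfl, fun i h1 h2 => by omega,
        fun _ => le_rfl, fun x hx => absurd hx (by simp)⟩
    | insert x P hx ih =>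
      obtain ⟨M, e, hM, _, hagree, hnew, hhb, hdone⟩ := ih
      obtain ⟨B, hBr, hB1, hB2, hB3⟩ := hB (ext n₁ x)
      have hbase : ∀ ω, LR F t 1 M n₁ B ω = LR F t 1 N n₁ B ω :=
        fun ω => LR_congr_net hM hWF hagree hBr _ _
      obtain ⟨M', e', hst, hee', hproc⟩ := process_one (e := e) hS hM hBr (ext n₁ x)
        (by rw [hbase]; exact hB1) (by rw [hbase]; exact hB2)
      refine ⟨M', e', hst.wf, fun _ => by omega, fun i hi => ?_, fun i h1 h2 => ?_,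
        fun ω => (hst.hb ω).trans (hhb ω), fun z hz ω hω => ?_⟩
      · rw [hst.agree i (by omega), hagree i hi]
      · by_cases h3 : i < n₁ + e
        · obtain ⟨B', hB', hB'', hB'''⟩ := hnew i h1 h3
          exact ⟨B', hB', by rw [hst.agree i h3]; exact hB'', hB'''⟩
        · exact ⟨B, hBr, hst.sup i (by omega) h2, hB3⟩
      · rw [Finset.mem_insert] at hz
        rcases hz with rfl | hz
        · obtain ⟨h1, h2⟩ := hproc ω hω
          refine ⟨h1.trans ?_, h2⟩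
          exact mul_le_mul_of_nonneg_left (hhb ω) hS.hρ0.le
        · obtain ⟨h1, T, hT, h2⟩ := hdone z hz ω hω
          obtain ⟨hT', hLR'⟩ := old_obs hS.law hM hst hT ω
          refine ⟨(hst.hb ω).trans h1, T, hT', ?_⟩
          rw [hLR']
          exact h2
  obtain ⟨M, e, hM, hepos, hagree, hnew, _, hdone⟩ := key Finset.univ
  have he : 0 < e := hepos ⟨fun _ => default, Finset.mem_univ _⟩
  have hdone' : ∀ ω : ℕ → S, HB F t M n₁ e ω ≤ ρ * HB F t N n₁ 0 ω ∧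
        ∃ T, Obs n₁ (n₁ + e) T ∧ zl < LR F t 1 M (n₁ + e) T ω ∧
          LR F t 1 M (n₁ + e) T ω < zh := by
    intro ω
    refine hdone (fun i => ω i) (Finset.mem_univ _) ω fun i hi => ?_
    simp [ext, hi]
  have hHB0 : ∀ ω, HB F t N n₁ 0 ω = Real.sqrt (LR F t 1 N n₁ (range n₁) ω) := by
    intro ω
    unfold HB Ex
    simp only [Finset.univ_unique, Finset.univ_eq_empty, Finset.prod_empty, one_mul,
      Finset.sum_singleton, add_zero]
    rw [LR_glue hWF (Finset.Subset.refl _)]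
  have hrange : range n₁ ⊆ range (n₁ + e) := Finset.range_subset_range.mpr (by omega)
  have hBCr : BC F t 1 M (n₁ + e) (range n₁) = BC F t 1 N n₁ (range n₁) := by
    rw [BC_local hS.law hM (Nat.le_add_right n₁ e) (Finset.Subset.refl _),
      BC_congr_net hM hWF hagree (Finset.Subset.refl _)]
  refine ⟨M, n₁ + e, ⟨hM, ?_, fun ω => ?_⟩, by omega, hagree, hnew⟩
  · have h1 : BC F t 1 M (n₁ + e) (range (n₁ + e)) = Ex (F false) n₁ (HB F t M n₁ e) := by
      unfold BC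
      rw [Ex_add]
      rfl
    rw [h1]
    calc Ex (F false) n₁ (HB F t M n₁ e) ≤
          Ex (F false) n₁ (fun ω => ρ * Real.sqrt (LR F t 1 N n₁ (range n₁) ω)) := by
          refine Ex_mono (fun s => (hS.law.pos false s).le) fun ω => ?_
          rw [← hHB0]
          exact (hdone' ω).1
      _ = ρ * BC F t 1 N n₁ (range n₁) := Ex_mul_left _ _ _ _
      _ ≤ ρ * β := mul_le_mul_of_nonneg_left hβ hS.hρ0.le
  · obtain ⟨_, T, hT, h2, h3⟩ := hdone' ω
    refine ⟨T, hT.2, h2, h3, ?_⟩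
    have h4 : BC F t 1 M (n₁ + e) T ≤ β := by
      refine (BC_mono hS.law hM hT.2 hT.1).trans ?_
      rw [hBCr]
      exact hβ
    calc BC F t 1 M (n₁ + e) T * ρ ≤ β * ρ := mul_le_mul_of_nonneg_right h4 hS.hρ0.le
      _ = ρ * β := mul_comm _ _

end Pool.Agent.MP_a79c01_pr
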