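import Pool.Agent.MP_a79c01_pr.Numeric

/-!
A signal distribution for which ties never occur.
-/

set_option autoImplicit false

namespace Pool.Agent.MP_a79c01_pr

open Finset Polynomial

/-- the signal laws -/
noncomputable def FF (u : ℝ) : Bool → Fin 4 → ℝ
  | true => ![2 / 9 * u, u, 9 / 10 * (1 - 11 / 9 * u), 1 / 10 * (1 - 11 / 9 * u)]
  | false => ![1 / 32, 9 / 32, 9 / 16, 1 / 8]

/-- the signal laws as polynomials -/
noncomputable def FP : Bool → Fin 4 → ℚ[X]
  | true => ![C (2 / 9) * X, X, C (9 / 10) * (1 - C (11 / 9) * X),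
      C (1 / 10) * (1 - C (11 / 9) * X)]
  | false => ![C (1 / 32), C (9 / 32), C (9 / 16), C (1 / 8)]

lemma FP_eval (u : ℝ) (b : Bool) (s : Fin 4) : aeval u (FP b s) = FF u b s := by
  cases b <;> fin_cases s <;> simp [FP, FF, aeval_def]

/-- a root of the polynomial of signal `s` in state one -/
noncomputable def rt : Fin 4 → ℚ := ![0, 0, 9 / 11, 9 / 11]

lemma FP_rt (s : Fin 4) : (FP true s).eval (rt s) = 0 := by
  fin_cases s <;> norm_num [FP, rt]

lemma FP_false_eval (u : ℝ) (q : ℚ) (s : Fin 4) :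
    (((FP false s).eval q : ℚ) : ℝ) = FF u false s := by
  fin_cases s <;> simp [FP, FF]

lemma FF_law {u : ℝ} (h0 : 0 < u) (h1 : u < 9 / 11) : Law (FF u) := by
  constructor
  · intro b s
    cases b
    · fin_cases s <;> norm_num [FF]
    · fin_cases s
      · simp [FF]; positivity
      · simp [FF]; positivity
      · simp [FF]; linarith
      · simp [FF]; linarith
  · intro b
    cases b
    · simp [FF, Fin.sum_univ_four]; norm_num
    · simp [FF, Fin.sum_univ_four]; ring

lemma FF_near {u : ℝ} (h0 : 9 / 16 - 1 / 20000 < u) (h1 : u < 9 / 16 + 1 / 20000) :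
    Near (FF u) 0 1 2 3 := by
  refine ⟨fun f => Fin.sum_univ_four f, ?_, ?_, ?_, ?_, ?_, ?_, ?_, ?_, ?_, ?_, ?_, ?_, ?_, ?_,
    ?_, ?_⟩
  all_goals simp [FF]
  all_goals norm_num
  all_goals linarith

lemma no_tie {u : ℝ} (hu : Transcendental ℚ u) (hF : Law (FF u)) (t : Bool) {N : ℕ → Finset ℕ}
    (hN : WF N) (i : ℕ) (ω : ℕ → Fin 4) (s : Fin 4) :
    pr (FF u) t 1 N true i (N i) ω * FF u true s ≠
      pr (FF u) t 1 N false i (N i) ω * FF u false s := by
  classical
  intro h
  set Q : Bool → ℚ[X] := fun b => ∑ x : Fin i → Fin 4, (∏ j, FP b (x j)) *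
    C (if Same (FF u) t 1 N (N i) (ext i x) ω then 1 else 0) with hQ
  have e1 : ∀ b, aeval u (Q b) = pr (FF u) t 1 N b i (N i) ω := by
    intro b
    rw [hQ]
    unfold pr Ex
    simp only [map_sum, map_mul, map_prod, FP_eval]
    refine Finset.sum_congr rfl fun x _ => ?_
    congr 1
    by_cases hs : Same (FF u) t 1 N (N i) (ext i x) ω
    · rw [if_pos hs, ind_true hs]; simp
    · rw [if_neg hs, ind_false hs]; simp
  have e2 : (((Q false).eval (rt s) : ℚ) : ℝ) = pr (FF u) t 1 N false i (N i) ω := by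
    rw [hQ]
    unfold pr Ex
    simp only [eval_finset_sum, eval_mul, eval_prod, eval_C, Rat.cast_sum, Rat.cast_mul,
      Rat.cast_prod, FP_false_eval u]
    refine Finset.sum_congr rfl fun x _ => ?_
    congr 1
    by_cases hs : Same (FF u) t 1 N (N i) (ext i x) ω
    · rw [if_pos hs, ind_true hs]; simp
    · rw [if_neg hs, ind_false hs]; simp
  have e3 : aeval u (Q true * FP true s - Q false * FP false s) = 0 := by
    rw [map_sub, map_mul, map_mul, e1, e1, FP_eval, FP_eval, h, sub_self]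
  have e4 : Q true * FP true s - Q false * FP false s = 0 := by
    by_contra hne
    exact hu ⟨_, hne, e3⟩
  have e5 := congrArg (fun P : ℚ[X] => ((P.eval (rt s) : ℚ) : ℝ)) e4
  simp only [eval_sub, eval_mul, FP_rt, mul_zero, zero_sub, Rat.cast_neg, Rat.cast_mul, e2,
    FP_false_eval u, eval_zero, Rat.cast_zero] at e5
  have h1 := pr_pos (t := t) (r := 1) hF hN (hN i) false ω
  have h2 := hF.pos false s
  have h3 := mul_pos h1 h2
  linarith

lemma exists_transcendental : ∃ u : ℝ, Transcendental ℚ u ∧ 9 / 16 - 1 / 20000 < u ∧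
    u < 9 / 16 + 1 / 20000 := by
  have h1 : {x : ℝ | IsAlgebraic ℚ x}.Countable := Algebraic.countable ℚ ℝ
  have h2 : Dense {x : ℝ | IsAlgebraic ℚ x}ᶜ := h1.dense_compl ℝ
  obtain ⟨u, hu, hu'⟩ := h2.exists_mem_open (isOpen_Ioo (a := (9 : ℝ) / 16 - 1 / 20000)
    (b := 9 / 16 + 1 / 20000)) ⟨9 / 16, by norm_num, by norm_num⟩
  exact ⟨u, hu, hu'.1, hu'.2⟩

end Pool.Agent.MP_a79c01_pr
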